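import Pool.Agent.H27.HB.TA
import Pool.Agent.H27.HB.TD

/-!
# HB board, module EQI: uniform smallness of the tails
-/

set_option autoImplicit false

namespace Pool.Agent.H35.HBE
open MeasureTheory Set Filter Topology Pool.Agent.H80.HS Pool.Agent.H93.HQ Pool.Agent.H27.HB
open scoped ContDiff ENNReal

section
variable {n : ℕ}

/-! ### Balls of the gauge -/

theorem meas_ball (t : ℝ) : MeasurableSet {x : H n | N x ≤ t} :=
  (isClosed_le continuous_N continuous_const).measurableSet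

open Classical in
/-- the characteristic function of the ball -/
noncomputable def ch (t : ℝ) (x : H n) : ℝ≥0∞ := if N x ≤ t then 1 else 0

theorem ch_eq (t : ℝ) : (ch t : H n → ℝ≥0∞) = {x : H n | N x ≤ t}.indicator 1 := by
  funext x
  unfold ch
  by_cases h : N x ≤ t
  · rw [if_pos h, indicator_of_mem (by exact h)]
    rfl
  · rw [if_neg h, indicator_of_notMem (by exact h)]

theorem meas_ch (t : ℝ) : Measurable (ch t : H n → ℝ≥0∞) := by
  rw [ch_eq]
  exact measurable_one.indicator (meas_ball t)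

theorem int_ch (t : ℝ) : ∫⁻ x : H n, ch t x = volume {x : H n | N x ≤ t} := by
  rw [ch_eq, lintegral_indicator_one (meas_ball t)]

theorem vol_ball (hDIL : U_DIL) {t : ℝ} (ht : 0 < t) :
    volume {x : H n | N x ≤ t} =
      ENNReal.ofReal (t ^ (2 * n + 2)) * volume {x : H n | N x ≤ 1} := by
  have h1 := hDIL n (ch t) t (meas_ch t) ht
  rw [int_ch] at h1
  rw [← h1, ← int_ch 1]
  congr 1
  refine lintegral_congr fun x => ?_
  unfold ch
  rw [N_dil ht.le]
  by_cases hx : N x ≤ 1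
  · rw [if_pos hx, if_pos (by nlinarith)]
  · rw [if_neg hx, if_neg]
    intro h
    apply hx
    by_contra hlt
    push Not at hlt
    nlinarith

theorem N_zero : N (0 : H n) = 0 := by
  have h4 : N4 (0 : H n) = 0 := by
    unfold N4 Pool.Agent.H93.HQ.sq
    simp
  unfold N
  rw [h4]
  simp

theorem vol_one_pos : 0 < volume {x : H n | N x ≤ 1} := by
  have h1 : IsOpen {x : H n | N x < 1} := isOpen_lt continuous_N continuous_const
  have h2 : (0 : H n) ∈ {x : H n | N x < 1} := by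
    show N (0 : H n) < 1
    rw [N_zero]
    norm_num
  refine lt_of_lt_of_le (h1.measure_pos volume ⟨0, h2⟩) (measure_mono fun x hx => ?_)
  have hx' : N x < 1 := hx
  exact hx'.le

theorem vol_one_fin (hCHI : T_CHI) : volume {x : H n | N x ≤ 1} ≠ ⊤ := by
  obtain ⟨χ, hχ, -, hχ1, -⟩ := hCHI n
  have h1 : {x : H n | N x ≤ 1} ⊆ tsupport χ := by
    intro x hx
    apply subset_tsupport
    show χ x ≠ 0
    rw [hχ1 x hx]
    exact one_ne_zero
  exact ne_top_of_le_ne_top (hχ.2.isCompact.measure_lt_top.ne) (measure_mono h1)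

/-- Tonelli and the invariance under right translations. -/
theorem ton (hTR : U_TR) (t : ℝ) (g : H n → ℝ≥0∞) (hg : Measurable g) :
    ∫⁻ c : H n, ∫⁻ z, ch t (mul c z) * g z = volume {x : H n | N x ≤ t} * ∫⁻ z, g z := by
  have hm : Measurable fun q : H n × H n => ch t (mul q.1 q.2) * g q.2 :=
    ((meas_ch t).comp continuous_mul'.measurable).mul (hg.comp measurable_snd)
  rw [lintegral_lintegral_swap hm.aemeasurable]
  have h1 : ∀ z : H n, ∫⁻ c, ch t (mul c z) * g z = volume {x : H n | N x ≤ t} * g z := by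
    intro z
    have h2 : Continuous fun c : H n => mul c z :=
      continuous_mul'.comp (continuous_id.prodMk continuous_const)
    have h3 : Measurable fun c : H n => ch t (mul c z) := (meas_ch t).comp h2.measurable
    rw [lintegral_mul_const _ h3, (hTR n (ch t) z (meas_ch t)).2, int_ch]
  rw [lintegral_congr h1, lintegral_const_mul _ hg]

/-! ### Integrability -/

theorem int_tst {u : H n → ℝ} (hu : Tst u) {s : ℝ} (hs : 0 < s) :
    Integrable fun z => |u z| ^ s := by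
  apply Continuous.integrable_of_hasCompactSupport
  · exact (hu.1.continuous.abs).rpow_const fun _ => Or.inr hs.le
  · exact hu.2.comp_left (g := fun x : ℝ => |x| ^ s) (by simp [Real.zero_rpow hs.ne'])

theorem int_hg (hHGC : T_HGC) {u : H n → ℝ} (hu : Tst u) {s : ℝ} (hs : 0 < s) :
    Integrable fun z => ‖hg u z‖ ^ s := by
  obtain ⟨h1, -, -, h2⟩ := hHGC n u
  apply Continuous.integrable_of_hasCompactSupport
  · exact ((h1 (hu.1.of_le (by exact_mod_cast le_top))).norm).rpow_const fun _ => Or.inr hs.le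
  · exact (h2 hu.2).comp_left (g := fun x : G n => ‖x‖ ^ s) (by simp [Real.zero_rpow hs.ne'])

theorem add_pow_le {x y p : ℝ} (hx : 0 ≤ x) (hy : 0 ≤ y) (hp : 0 ≤ p) :
    (x + y) ^ p ≤ 2 ^ p * (x ^ p + y ^ p) := by
  have h1 : x + y ≤ 2 * max x y := by
    have := le_max_left x y
    have := le_max_right x y
    linarith
  have h2 : (x + y) ^ p ≤ (2 * max x y) ^ p :=
    Real.rpow_le_rpow (add_nonneg hx hy) h1 hp
  rw [Real.mul_rpow (by norm_num) (le_max_of_le_left hx)] at h2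
  refine h2.trans (mul_le_mul_of_nonneg_left ?_ (Real.rpow_nonneg (by norm_num) _))
  rcases le_total x y with h | h
  · rw [max_eq_right h]
    have := Real.rpow_nonneg hx p
    linarith
  · rw [max_eq_left h]
    have := Real.rpow_nonneg hy p
    linarith

/-! ### The local inequality -/

/-- the cutoff function of the ball around `c⁻¹` -/
theorem cutoff (hHGA : T_HGA) (hHGC : T_HGC) (hACT : T_ACT) (hCHI : T_CHI) (hn : 1 ≤ n) :
    ∃ G : ℝ, 0 ≤ G ∧ ∀ (r : ℝ), 0 < r → ∀ c : H n, ∃ χ : H n → ℝ, Tst χ ∧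
      (∀ z, |χ z| ≤ 1) ∧ (∀ z, N (mul c z) ≤ r / 2 → χ z = 1) ∧
      (∀ z, ¬ N (mul c z) ≤ r → χ z = 0) ∧ (∀ z, ‖hg χ z‖ ≤ G / r) ∧
      (∀ z, ¬ N (mul c z) ≤ r → hg χ z = 0) := by
  obtain ⟨χ, hχ, hχ0, hχ1, hχ2⟩ := hCHI n
  obtain ⟨g1, -, g3, g4⟩ := hHGC n χ
  have hc := g1 (hχ.1.of_le (by exact_mod_cast le_top))
  obtain ⟨B, hB⟩ := hc.bounded_above_of_compact_support (g4 hχ.2)
  have hB0 : 0 ≤ B := (norm_nonneg _).trans (hB 0)
  refine ⟨2 * B, by positivity, fun r hr c => ?_⟩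
  set ρ : ℝ := r / 2 with hρ
  have hρ0 : 0 < ρ := by positivity
  have hρi : 0 < ρ⁻¹ := inv_pos.2 hρ0
  have hnr : (1 : ℝ) ≤ n := by exact_mod_cast hn
  obtain ⟨t1, t2⟩ := hACT n hn 2 (by norm_num) (by linarith) c ρ⁻¹ hρi χ hχ
  set κ : ℝ := (ρ⁻¹) ^ ((2 * (n : ℝ) + 2 - 2) / 2) with hκ
  have hκ0 : 0 < κ := Real.rpow_pos_of_pos hρi _
  have hact : ∀ z, act 2 c ρ⁻¹ χ z = κ * χ (dil ρ⁻¹ (mul c z)) := fun z => rfl
  have e0 : ∀ z, κ⁻¹ * act 2 c ρ⁻¹ χ z = χ (dil ρ⁻¹ (mul c z)) := by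
    intro z
    rw [hact, ← mul_assoc, inv_mul_cancel₀ hκ0.ne', one_mul]
  have hN : ∀ z, N (dil ρ⁻¹ (mul c z)) = ρ⁻¹ * N (mul c z) := fun z => N_dil hρi.le _
  have hgr : ∀ z, hg (fun z => κ⁻¹ * act 2 c ρ⁻¹ χ z) z = ρ⁻¹ • hg χ (dil ρ⁻¹ (mul c z)) := by
    intro z
    have hd : DifferentiableAt ℝ (act 2 c ρ⁻¹ χ) z :=
      (t1.1.differentiable (by simp)) z
    have h1 := (hHGA n (act 2 c ρ⁻¹ χ) (act 2 c ρ⁻¹ χ) z hd hd).2.2.1 (fun s => κ⁻¹ * s) κ⁻¹
      (by simpa using (hasDerivAt_id (act 2 c ρ⁻¹ χ z)).const_mul κ⁻¹)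
    rw [h1, t2]
    show κ⁻¹ • ((κ * ρ⁻¹) • hg χ (dil ρ⁻¹ (mul c z))) = _
    rw [smul_smul, ← mul_assoc, inv_mul_cancel₀ hκ0.ne', one_mul]
  refine ⟨fun z => κ⁻¹ * act 2 c ρ⁻¹ χ z, ⟨contDiff_const.mul t1.1, t1.2.mul_left⟩, ?_, ?_, ?_,
    ?_, ?_⟩
  · intro z
    show |κ⁻¹ * act 2 c ρ⁻¹ χ z| ≤ 1
    rw [e0, abs_of_nonneg (hχ0 _).1]
    exact (hχ0 _).2
  · intro z hz
    show κ⁻¹ * act 2 c ρ⁻¹ χ z = 1
    rw [e0]
    apply hχ1
    rw [hN, inv_mul_le_iff₀ hρ0, mul_one]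
    exact hz
  · intro z hz
    show κ⁻¹ * act 2 c ρ⁻¹ χ z = 0
    rw [e0]
    apply hχ2
    rw [hN, le_inv_mul_iff₀ hρ0]
    push Not at hz
    rw [hρ]
    linarith
  · intro z
    rw [hgr, norm_smul, Real.norm_eq_abs, abs_of_pos hρi]
    have h1 := hB (dil ρ⁻¹ (mul c z))
    calc ρ⁻¹ * ‖hg χ (dil ρ⁻¹ (mul c z))‖ ≤ ρ⁻¹ * B := mul_le_mul_of_nonneg_left h1 hρi.le
      _ = 2 * B / r := by rw [hρ]; field_simp
  · intro z hz
    rw [hgr, g3, smul_zero]
    intro hmem
    have hcl : IsClosed {x : H n | N x ≤ 2} := isClosed_le continuous_N continuous_const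
    have hsub : tsupport χ ⊆ {x : H n | N x ≤ 2} := by
      apply closure_minimal _ hcl
      intro x hx
      by_contra hlt
      have hlt' : ¬ N x ≤ 2 := hlt
      push Not at hlt'
      exact hx (hχ2 x hlt'.le)
    have h1 : N (dil ρ⁻¹ (mul c z)) ≤ 2 := hsub hmem
    rw [hN, inv_mul_le_iff₀ hρ0] at h1
    apply hz
    rw [hρ] at h1
    linarith

/-- The inequality for a function with small masses in small balls. -/
theorem main_ineq (hDIL : U_DIL) (hTR : U_TR) (hHGA : T_HGA) (hHGC : T_HGC) (hCHI : T_CHI)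
    (hTQ : T_TQ) (hn : 1 ≤ n) {G : ℝ} (hG : 0 ≤ G) {r : ℝ} (hr : 0 < r)
    (hcut : ∀ c : H n, ∃ χ : H n → ℝ, Tst χ ∧
      (∀ z, |χ z| ≤ 1) ∧ (∀ z, N (mul c z) ≤ r / 2 → χ z = 1) ∧
      (∀ z, ¬ N (mul c z) ≤ r → χ z = 0) ∧ (∀ z, ‖hg χ z‖ ≤ G / r) ∧
      (∀ z, ¬ N (mul c z) ≤ r → hg χ z = 0))
    {p S η : ℝ} (hp : 1 < p) (hp' : p < 2 * n + 2) (hS : Opt n p S) (hη : 0 < η) {φ f : H n → ℝ}
    (hφ : Tst φ) (hf : Tst f) (hfφ : ∀ z, |f z| ≤ |φ z|)
    (hsm : ∀ c : H n, ∫ z in {z | N (mul c z) ≤ r}, |φ z| ^ ps n p ≤ η) :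
    ms (ps n p) f ≤ 2 ^ (2 * n + 2) * (η ^ (1 - th n p) * S⁻¹) *
      (2 ^ p * (en p (hg f) + (G / r) ^ p * ∫ z, |f z| ^ p)) := by
  have hnr : (1 : ℝ) ≤ n := by exact_mod_cast hn
  have hp0 : 0 < p := by linarith
  have hQp : 0 < 2 * (n : ℝ) + 2 - p := by linarith
  set q : ℝ := ps n p with hq
  have hq0 : 0 < q := by rw [hq]; unfold ps; positivity
  have hS0 : 0 < S := hS.1
  set θ : ℝ := th n p with hθ
  have hθ0 : 0 < θ := by rw [hθ]; unfold th; positivity
  have hθ1 : θ < 1 := by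
    rw [hθ]; unfold th
    rw [div_lt_one (by positivity)]
    linarith
  have hGr : 0 ≤ G / r := div_nonneg hG hr.le
  set g2 : H n → ℝ := fun z => 2 ^ p * (‖hg f z‖ ^ p + (G / r) ^ p * |f z| ^ p) with hg2
  have hg20 : ∀ z, 0 ≤ g2 z := fun z => by
    have h1 := Real.rpow_nonneg (norm_nonneg (hg f z)) p
    have h2 := Real.rpow_nonneg (abs_nonneg (f z)) p
    have h3 := Real.rpow_nonneg hGr p
    have h4 : (0 : ℝ) ≤ 2 ^ p := Real.rpow_nonneg (by norm_num) p
    exact mul_nonneg h4 (add_nonneg h1 (mul_nonneg h3 h2))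
  have hg2i : Integrable g2 :=
    (((int_hg hHGC hf hp0).add ((int_tst hf hp0).const_mul _)).const_mul _)
  have hhgc : Continuous (hg f) := (hHGC n f).1 (hf.1.of_le (by exact_mod_cast le_top))
  have hg2m : Measurable fun z => ENNReal.ofReal (g2 z) := by
    apply Measurable.ennreal_ofReal
    apply Continuous.measurable
    exact continuous_const.mul ((hhgc.norm.rpow_const fun _ => Or.inr hp0.le).add
      (continuous_const.mul (hf.1.continuous.abs.rpow_const fun _ => Or.inr hp0.le)))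
  have hfm : Measurable fun z => ENNReal.ofReal (|f z| ^ q) := by
    apply Measurable.ennreal_ofReal
    exact (hf.1.continuous.abs.rpow_const fun _ => Or.inr hq0.le).measurable
  set k1 : ℝ := η ^ (1 - θ) * S⁻¹ with hk1
  have hk10 : 0 ≤ k1 := mul_nonneg (Real.rpow_nonneg hη.le _) (inv_nonneg.2 hS0.le)
  -- for every `c`
  have hloc : ∀ c : H n, ∫⁻ z, ch (r / 2) (mul c z) * ENNReal.ofReal (|f z| ^ q) ≤
      ENNReal.ofReal k1 * ∫⁻ z, ch r (mul c z) * ENNReal.ofReal (g2 z) := by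
    intro c
    obtain ⟨χ, hχ, c1, c2, c3, c4, c5⟩ := hcut c
    set ψ : H n → ℝ := fun z => χ z * f z with hψ
    have hψt : Tst ψ := ⟨hχ.1.mul hf.1, hf.2.mul_left⟩
    -- the left side
    have l1 : ∫⁻ z, ch (r / 2) (mul c z) * ENNReal.ofReal (|f z| ^ q) ≤
        ENNReal.ofReal (ms q ψ) := by
      unfold ms
      rw [ofReal_integral_eq_lintegral_ofReal (int_tst hψt hq0)
        (Eventually.of_forall fun z => Real.rpow_nonneg (abs_nonneg _) _)]
      refine lintegral_mono fun z => ?_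
      unfold ch
      by_cases h : N (mul c z) ≤ r / 2
      · rw [if_pos h, one_mul]
        show ENNReal.ofReal (|f z| ^ q) ≤ ENNReal.ofReal (|χ z * f z| ^ q)
        rw [c2 z h, one_mul]
      · rw [if_neg h, zero_mul]
        exact zero_le
    -- small mass
    have l2 : ms q ψ ≤ η := by
      refine le_trans ?_ (hsm c)
      have hms : MeasurableSet {z : H n | N (mul c z) ≤ r} :=
        (isClosed_le (continuous_N.comp (continuous_mul c)) continuous_const).measurableSet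
      rw [← integral_indicator hms]
      apply integral_mono (int_tst hψt hq0) ((int_tst hφ hq0).indicator hms)
      intro z
      by_cases h : N (mul c z) ≤ r
      · rw [indicator_of_mem (by exact h)]
        apply Real.rpow_le_rpow (abs_nonneg _) _ hq0.le
        show |χ z * f z| ≤ |φ z|
        rw [abs_mul]
        exact (mul_le_of_le_one_left (abs_nonneg _) (c1 z)).trans (hfφ z)
      · rw [indicator_of_notMem (by exact h)]
        show |χ z * f z| ^ q ≤ 0
        rw [c3 z h, zero_mul, abs_zero, Real.zero_rpow hq0.ne']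
    have l3 := (hTQ n hn p S hp hp' hS).1 ψ hψt
    have hms0 : 0 ≤ ms q ψ := integral_nonneg fun z => Real.rpow_nonneg (abs_nonneg _) _
    have l4 : ms q ψ ≤ k1 * en p (hg ψ) := by
      have hen : ms q ψ ^ θ ≤ S⁻¹ * en p (hg ψ) := by
        rw [inv_mul_eq_div, le_div_iff₀ hS0, mul_comm]
        exact l3
      rcases hms0.lt_or_eq with h | h
      · calc ms q ψ = ms q ψ ^ (1 - θ) * ms q ψ ^ θ := by
              rw [← Real.rpow_add h, sub_add_cancel, Real.rpow_one]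
          _ ≤ η ^ (1 - θ) * (S⁻¹ * en p (hg ψ)) := by
              apply mul_le_mul (Real.rpow_le_rpow hms0 l2 (by linarith)) hen
                (Real.rpow_nonneg hms0 _) (Real.rpow_nonneg hη.le _)
          _ = k1 * en p (hg ψ) := by rw [hk1]; ring
      · rw [← h]
        exact mul_nonneg hk10 (integral_nonneg fun z => Real.rpow_nonneg (norm_nonneg _) _)
    -- the right side
    have l5 : ENNReal.ofReal (en p (hg ψ)) ≤ ∫⁻ z, ch r (mul c z) * ENNReal.ofReal (g2 z) := by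
      unfold en
      rw [ofReal_integral_eq_lintegral_ofReal (int_hg hHGC hψt hp0)
        (Eventually.of_forall fun z => Real.rpow_nonneg (norm_nonneg _) _)]
      refine lintegral_mono fun z => ?_
      have hdχ : DifferentiableAt ℝ χ z := (hχ.1.differentiable (by simp)) z
      have hdf : DifferentiableAt ℝ f z := (hf.1.differentiable (by simp)) z
      have hpr : hg ψ z = χ z • hg f z + f z • hg χ z := (hHGA n χ f z hdχ hdf).2.1
      unfold ch
      by_cases h : N (mul c z) ≤ r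
      · rw [if_pos h, one_mul]
        apply ENNReal.ofReal_le_ofReal
        have h1 : ‖hg ψ z‖ ≤ ‖hg f z‖ + (G / r) * |f z| := by
          rw [hpr]
          refine (norm_add_le _ _).trans (add_le_add ?_ ?_)
          · rw [norm_smul, Real.norm_eq_abs]
            exact mul_le_of_le_one_left (norm_nonneg _) (c1 z)
          · rw [norm_smul, Real.norm_eq_abs, mul_comm]
            exact mul_le_mul_of_nonneg_right (c4 z) (abs_nonneg _)
        calc ‖hg ψ z‖ ^ p ≤ (‖hg f z‖ + (G / r) * |f z|) ^ p :=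
              Real.rpow_le_rpow (norm_nonneg _) h1 hp0.le
          _ ≤ 2 ^ p * (‖hg f z‖ ^ p + ((G / r) * |f z|) ^ p) :=
              add_pow_le (norm_nonneg _) (mul_nonneg hGr (abs_nonneg _)) hp0.le
          _ = g2 z := by rw [Real.mul_rpow hGr (abs_nonneg _)]
      · rw [if_neg h, zero_mul, hpr, c3 z h, c5 z h, zero_smul, smul_zero, add_zero, norm_zero,
          Real.zero_rpow hp0.ne', ENNReal.ofReal_zero]
    calc ∫⁻ z, ch (r / 2) (mul c z) * ENNReal.ofReal (|f z| ^ q) ≤ ENNReal.ofReal (ms q ψ) := l1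
      _ ≤ ENNReal.ofReal (k1 * en p (hg ψ)) := ENNReal.ofReal_le_ofReal l4
      _ = ENNReal.ofReal k1 * ENNReal.ofReal (en p (hg ψ)) := ENNReal.ofReal_mul hk10
      _ ≤ _ := by gcongr
  -- integration over `c`
  have hint := lintegral_mono (μ := (volume : Measure (H n))) hloc
  rw [ton hTR (r / 2) _ hfm] at hint
  have hm2 : Measurable fun c : H n => ∫⁻ z, ch r (mul c z) * ENNReal.ofReal (g2 z) := by
    have hm : Measurable fun q : H n × H n => ch r (mul q.1 q.2) * ENNReal.ofReal (g2 q.2) :=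
      ((meas_ch r).comp continuous_mul'.measurable).mul (hg2m.comp measurable_snd)
    exact hm.lintegral_prod_right'
  rw [lintegral_const_mul _ hm2, ton hTR r _ hg2m] at hint
  have e1 : ∫⁻ z, ENNReal.ofReal (|f z| ^ q) = ENNReal.ofReal (ms q f) := by
    unfold ms
    rw [ofReal_integral_eq_lintegral_ofReal (int_tst hf hq0)
      (Eventually.of_forall fun z => Real.rpow_nonneg (abs_nonneg _) _)]
  have e2 : ∫⁻ z, ENNReal.ofReal (g2 z) = ENNReal.ofReal (∫ z, g2 z) := by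
    rw [ofReal_integral_eq_lintegral_ofReal hg2i (Eventually.of_forall hg20)]
  have e3 : ∫ z, g2 z = 2 ^ p * (en p (hg f) + (G / r) ^ p * ∫ z, |f z| ^ p) := by
    rw [hg2, integral_const_mul, integral_add (int_hg hHGC hf hp0)
      ((int_tst hf hp0).const_mul _), integral_const_mul]
    rfl
  rw [e1, e2, vol_ball hDIL hr, vol_ball hDIL (show 0 < r / 2 by positivity)] at hint
  have hv0 := vol_one_pos (n := n)
  have hvt := vol_one_fin (n := n) hCHI
  set v : ℝ≥0∞ := volume {x : H n | N x ≤ 1} with hv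
  have hr2 : (0 : ℝ) < (r / 2) ^ (2 * n + 2) := by positivity
  have hI0 : 0 ≤ ∫ z, g2 z := integral_nonneg hg20
  have hms0 : 0 ≤ ms q f := integral_nonneg fun z => Real.rpow_nonneg (abs_nonneg _) _
  have hv' : 0 < v.toReal := ENNReal.toReal_pos hv0.ne' hvt
  rw [← ENNReal.ofReal_toReal hvt, ← ENNReal.ofReal_mul hr2.le,
    ← ENNReal.ofReal_mul (by positivity), ← ENNReal.ofReal_mul (by positivity),
    ← ENNReal.ofReal_mul (by positivity), ← ENNReal.ofReal_mul hk10,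
    ENNReal.ofReal_le_ofReal_iff (by positivity)] at hint
  rw [← e3]
  have e4 : r ^ (2 * n + 2) = 2 ^ (2 * n + 2) * (r / 2) ^ (2 * n + 2) := by
    rw [← mul_pow]
    congr 1
    ring
  rw [e4] at hint
  have hpos : 0 < (r / 2) ^ (2 * n + 2) * v.toReal := mul_pos hr2 hv'
  have h5 : (r / 2) ^ (2 * n + 2) * v.toReal * ms q f ≤
      (r / 2) ^ (2 * n + 2) * v.toReal * (2 ^ (2 * n + 2) * k1 * ∫ z, g2 z) := by
    refine hint.trans (le_of_eq ?_)
    ring
  exact le_of_mul_le_mul_left h5 hpos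

theorem small_pow {s δ : ℝ} (hs : 0 < s) (hδ : 0 < δ) : ∃ x : ℝ, 0 < x ∧ x ≤ δ ∧ x ≤ 1 ∧
    x ^ s ≤ δ := by
  refine ⟨min (min δ 1) (δ ^ s⁻¹), lt_min (lt_min hδ one_pos) (Real.rpow_pos_of_pos hδ _),
    (min_le_left _ _).trans (min_le_left _ _), (min_le_left _ _).trans (min_le_right _ _), ?_⟩
  have h0 : 0 ≤ min (min δ 1) (δ ^ s⁻¹) :=
    le_min (le_min hδ.le zero_le_one) (Real.rpow_nonneg hδ.le _)
  calc (min (min δ 1) (δ ^ s⁻¹)) ^ s ≤ (δ ^ s⁻¹) ^ s :=
        Real.rpow_le_rpow h0 (min_le_right _ _) hs.le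
    _ = δ := by rw [← Real.rpow_mul hδ.le, inv_mul_cancel₀ hs.ne', Real.rpow_one]

end

theorem pf_EQI (hNCC : T_NCC) (hTRM : T_TRM) (hCHI : T_CHI) (hOPT : T_OPT) (hTQ : T_TQ)
    (hHGA : T_HGA) (hHGC : T_HGC) (hACT : T_ACT) (hTR : U_TR) (hDIL : U_DIL) : T_EQI := by
  intro n hn a b η ha hab hb hη
  have hnr : (1 : ℝ) ≤ n := by exact_mod_cast hn
  set Q : ℝ := 2 * (n : ℝ) + 2 with hQ
  have hQ0 : 0 < Q := by positivity
  have ha0 : 0 < a := by linarith
  obtain ⟨C, hC, hTR'⟩ := hTRM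
  obtain ⟨L, M0, hL, hLM⟩ := hOPT n hn a b ha hab hb
  obtain ⟨G, hG, hcut⟩ := cutoff hHGA hHGC hACT hCHI hn
  have hM0 : 0 ≤ M0 := by
    obtain ⟨⟨S, hS⟩, h2⟩ := hLM a le_rfl hab
    have := h2 S hS
    linarith
  -- constants
  set K : ℝ := 2 ^ (2 * n + 2) * 2 ^ Q * L⁻¹ with hK
  have hK0 : 0 < K := by positivity
  set A1 : ℝ := K * ((1 + C) ^ Q * (M0 + 1)) with hA1
  have hA10 : 0 < A1 := by positivity
  obtain ⟨η1, hη10, hη1δ, hη11, hη1p⟩ := small_pow (s := a / Q) (δ := min (η / 2) (η / (4 * A1)))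
    (by positivity) (lt_min (by positivity) (by positivity))
  obtain ⟨ε, r, R, hε, hr, hNC⟩ := hNCC n hn a b η1 ha hab hb hη10
  set A2 : ℝ := K * (1 + G / r) ^ Q with hA2
  have hGr : 0 ≤ G / r := div_nonneg hG hr.le
  have hA20 : 0 < A2 := by positivity
  obtain ⟨x, hx0, -, hx1, hxp⟩ := small_pow (s := a ^ 2 / Q) (δ := η / (4 * A2))
    (by positivity) (by positivity)
  set M : ℝ := x⁻¹ with hM
  have hM1 : 1 ≤ M := by
    rw [hM]
    exact (one_le_inv₀ hx0).2 hx1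
  have hMpos : 0 < M := by linarith
  refine ⟨min ε 1, 2 * M, R, lt_min hε one_pos, ?_⟩
  intro p S hap hpb hS φ hnear hcen
  obtain ⟨hφ, hφ1, hφen⟩ := hnear
  have hp : 1 < p := lt_of_lt_of_le ha hap
  have hp0 : 0 < p := by linarith
  have hpQ : p < 2 * (n : ℝ) + 2 := lt_of_le_of_lt hpb hb
  have hQp : 0 < 2 * (n : ℝ) + 2 - p := by linarith
  obtain ⟨hLS, hSM⟩ := (hLM p hap hpb).2 S hS
  have hS0 : 0 < S := hS.1
  obtain ⟨hsm, htail⟩ := hNC p S hap hpb hS φ
    ⟨hφ, hφ1, hφen.trans (by have := min_le_left ε 1; linarith)⟩ hcen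
  obtain ⟨f, hf, hfφ, hf0, hfM, hfg⟩ := hTR' n M φ hMpos hφ
  set q : ℝ := ps n p with hq
  have hq0 : 0 < q := by rw [hq]; unfold ps; positivity
  have hqp : a ^ 2 / Q ≤ q - p := by
    have e : q - p = p ^ 2 / (2 * (n : ℝ) + 2 - p) := by
      rw [hq]; unfold ps
      rw [eq_div_iff hQp.ne', sub_mul, div_mul_cancel₀ _ hQp.ne']
      ring
    rw [e]
    apply div_le_div₀ (sq_nonneg p) (pow_le_pow_left₀ ha0.le hap 2) hQp
    rw [hQ]; linarith
  have hθ : 1 - th n p = p / Q := by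
    unfold th
    rw [hQ]
    field_simp
    ring
  have hmain := main_ineq hDIL hTR hHGA hHGC hCHI hTQ hn hG hr (hcut r hr) hp hpQ hS hη10 hφ hf
    hfφ hsm
  rw [hθ] at hmain
  -- the energy of `f`
  have hE1 : en p (hg f) ≤ (1 + C) ^ Q * (M0 + 1) := by
    have h1 : en p (hg f) ≤ C ^ p * en p (hg φ) := by
      unfold en
      rw [← integral_const_mul]
      apply integral_mono (int_hg hHGC hf hp0) ((int_hg hHGC hφ hp0).const_mul _)
      intro z
      show ‖hg f z‖ ^ p ≤ C ^ p * ‖hg φ z‖ ^ p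
      rw [← Real.mul_rpow hC.le (norm_nonneg _)]
      exact Real.rpow_le_rpow (norm_nonneg _) (hfg z) hp0.le
    have h2 : en p (hg φ) ≤ M0 + 1 := by
      have := min_le_right ε 1
      linarith
    have h3 : C ^ p ≤ (1 + C) ^ Q :=
      (Real.rpow_le_rpow hC.le (by linarith) hp0.le).trans
        (Real.rpow_le_rpow_of_exponent_le (by linarith) (by rw [hQ]; exact hpQ.le))
    calc en p (hg f) ≤ C ^ p * en p (hg φ) := h1
      _ ≤ C ^ p * (M0 + 1) := mul_le_mul_of_nonneg_left h2 (Real.rpow_nonneg hC.le _)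
      _ ≤ _ := mul_le_mul_of_nonneg_right h3 (by linarith)
  have hE2 : ∫ z, |f z| ^ p ≤ x ^ (a ^ 2 / Q) := by
    have h1 : ∫ z, |f z| ^ p ≤ M ^ (p - q) * ms q φ := by
      unfold ms
      rw [← integral_const_mul]
      apply integral_mono (int_tst hf hp0) ((int_tst hφ hq0).const_mul _)
      intro z
      show |f z| ^ p ≤ M ^ (p - q) * |φ z| ^ q
      by_cases h : |φ z| ≤ M
      · rw [hf0 z h, abs_zero, Real.zero_rpow hp0.ne']
        exact mul_nonneg (Real.rpow_nonneg hMpos.le _) (Real.rpow_nonneg (abs_nonneg _) _)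
      · push Not at h
        have hφ0 : 0 < |φ z| := hMpos.trans h
        calc |f z| ^ p ≤ |φ z| ^ p := Real.rpow_le_rpow (abs_nonneg _) (hfφ z) hp0.le
          _ = |φ z| ^ (p - q) * |φ z| ^ q := by rw [← Real.rpow_add hφ0, sub_add_cancel]
          _ ≤ M ^ (p - q) * |φ z| ^ q := by
              apply mul_le_mul_of_nonneg_right _ (Real.rpow_nonneg hφ0.le _)
              apply Real.rpow_le_rpow_of_nonpos hMpos h.le
              have : 0 < a ^ 2 / Q := by positivity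
              linarith
    rw [hφ1, mul_one] at h1
    refine h1.trans ?_
    have e : M ^ (p - q) = x ^ (q - p) := by
      rw [hM, Real.inv_rpow hx0.le, ← Real.rpow_neg hx0.le, neg_sub]
    rw [e]
    exact Real.rpow_le_rpow_of_exponent_ge hx0 hx1 hqp
  have hη1' : η1 ^ (p / Q) ≤ η1 ^ (a / Q) :=
    Real.rpow_le_rpow_of_exponent_ge hη10 hη11 (div_le_div_of_nonneg_right hap hQ0.le)
  have hη1'' : η1 ^ (p / Q) ≤ 1 := Real.rpow_le_one hη10.le hη11 (by positivity)
  have hη1n : 0 ≤ η1 ^ (p / Q) := Real.rpow_nonneg hη10.le _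
  have h2p : (2 : ℝ) ^ p ≤ 2 ^ Q :=
    Real.rpow_le_rpow_of_exponent_le (by norm_num) (by rw [hQ]; exact hpQ.le)
  have hGp : (G / r) ^ p ≤ (1 + G / r) ^ Q :=
    (Real.rpow_le_rpow hGr (by linarith) hp0.le).trans
      (Real.rpow_le_rpow_of_exponent_le (by linarith) (by rw [hQ]; exact hpQ.le))
  have hSi : S⁻¹ ≤ L⁻¹ := by
    apply inv_anti₀ hL hLS
  have hI0 : 0 ≤ ∫ z, |f z| ^ p := integral_nonneg fun z => Real.rpow_nonneg (abs_nonneg _) _
  have hen0 : 0 ≤ en p (hg f) := integral_nonneg fun z => Real.rpow_nonneg (norm_nonneg _) _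
  have hGp0 : 0 ≤ (G / r) ^ p := Real.rpow_nonneg hGr _
  have h2p0 : (0 : ℝ) ≤ 2 ^ p := Real.rpow_nonneg (by norm_num) _
  have hsum : ms q f ≤ η / 2 := by
    have h1 : 2 ^ (2 * n + 2) * (η1 ^ (p / Q) * S⁻¹) *
        (2 ^ p * (en p (hg f) + (G / r) ^ p * ∫ z, |f z| ^ p)) ≤
        K * η1 ^ (p / Q) * (en p (hg f) + (G / r) ^ p * ∫ z, |f z| ^ p) := by
      have hX : 0 ≤ en p (hg f) + (G / r) ^ p * ∫ z, |f z| ^ p :=
        add_nonneg hen0 (mul_nonneg hGp0 hI0)
      have h2 : S⁻¹ * 2 ^ p ≤ L⁻¹ * 2 ^ Q :=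
        mul_le_mul hSi h2p h2p0 (inv_nonneg.2 hL.le)
      have h3 : 0 ≤ 2 ^ (2 * n + 2) * η1 ^ (p / Q) *
          (en p (hg f) + (G / r) ^ p * ∫ z, |f z| ^ p) :=
        mul_nonneg (mul_nonneg (by positivity) hη1n) hX
      calc _ = (S⁻¹ * 2 ^ p) * (2 ^ (2 * n + 2) * η1 ^ (p / Q) *
            (en p (hg f) + (G / r) ^ p * ∫ z, |f z| ^ p)) := by ring
        _ ≤ (L⁻¹ * 2 ^ Q) * (2 ^ (2 * n + 2) * η1 ^ (p / Q) *
            (en p (hg f) + (G / r) ^ p * ∫ z, |f z| ^ p)) :=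
            mul_le_mul_of_nonneg_right h2 h3
        _ = _ := by rw [hK]; ring
    have h2 : K * η1 ^ (p / Q) * en p (hg f) ≤ η / 4 := by
      have h3 : η1 ^ (p / Q) ≤ η / (4 * A1) :=
        hη1'.trans (hη1p.trans (min_le_right _ _))
      calc K * η1 ^ (p / Q) * en p (hg f) ≤ K * η1 ^ (p / Q) * ((1 + C) ^ Q * (M0 + 1)) :=
            mul_le_mul_of_nonneg_left hE1 (mul_nonneg hK0.le hη1n)
        _ = A1 * η1 ^ (p / Q) := by rw [hA1]; ring
        _ ≤ A1 * (η / (4 * A1)) := mul_le_mul_of_nonneg_left h3 hA10.le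
        _ = η / 4 := by field_simp
    have h4 : K * η1 ^ (p / Q) * ((G / r) ^ p * ∫ z, |f z| ^ p) ≤ η / 4 := by
      have h5 : (G / r) ^ p * ∫ z, |f z| ^ p ≤ (1 + G / r) ^ Q * x ^ (a ^ 2 / Q) :=
        mul_le_mul hGp hE2 hI0 (by positivity)
      calc K * η1 ^ (p / Q) * ((G / r) ^ p * ∫ z, |f z| ^ p) ≤
            K * 1 * ((1 + G / r) ^ Q * x ^ (a ^ 2 / Q)) := by
            apply mul_le_mul (mul_le_mul_of_nonneg_left hη1'' hK0.le) h5
              (mul_nonneg hGp0 hI0) (by positivity)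
        _ = A2 * x ^ (a ^ 2 / Q) := by rw [hA2]; ring
        _ ≤ A2 * (η / (4 * A2)) := mul_le_mul_of_nonneg_left hxp hA20.le
        _ = η / 4 := by field_simp
    have h6 : K * η1 ^ (p / Q) * (en p (hg f) + (G / r) ^ p * ∫ z, |f z| ^ p) =
        K * η1 ^ (p / Q) * en p (hg f) + K * η1 ^ (p / Q) * ((G / r) ^ p * ∫ z, |f z| ^ p) := by
      ring
    linarith
  -- the tails
  have hmsA : MeasurableSet {z : H n | 2 * M < |φ z| ∨ R < N z} :=
    ((isOpen_lt continuous_const hφ.1.continuous.abs).union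
      (isOpen_lt continuous_const continuous_N)).measurableSet
  have hmsB : MeasurableSet {z : H n | R < N z} :=
    (isOpen_lt continuous_const continuous_N).measurableSet
  have hfin : ∫ z in {z | 2 * M < |φ z| ∨ R < N z}, |φ z| ^ q ≤
      ms q f + ∫ z in {z | R < N z}, |φ z| ^ q := by
    unfold ms
    rw [← integral_indicator hmsA, ← integral_indicator hmsB,
      ← integral_add (int_tst hf hq0) ((int_tst hφ hq0).indicator hmsB)]
    apply integral_mono ((int_tst hφ hq0).indicator hmsA)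
      ((int_tst hf hq0).add ((int_tst hφ hq0).indicator hmsB))
    intro z
    show ({z | 2 * M < |φ z| ∨ R < N z}.indicator (fun z => |φ z| ^ q) z) ≤
      |f z| ^ q + {z | R < N z}.indicator (fun z => |φ z| ^ q) z
    have hb0 : 0 ≤ {z | R < N z}.indicator (fun z => |φ z| ^ q) z :=
      indicator_nonneg (fun z _ => Real.rpow_nonneg (abs_nonneg _) _) z
    have hf0' : 0 ≤ |f z| ^ q := Real.rpow_nonneg (abs_nonneg _) _
    by_cases h1 : 2 * M < |φ z|
    · rw [indicator_of_mem (show z ∈ {z | 2 * M < |φ z| ∨ R < N z} from Or.inl h1),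
        hfM z h1.le]
      linarith
    · by_cases h2 : R < N z
      · rw [indicator_of_mem (show z ∈ {z | 2 * M < |φ z| ∨ R < N z} from Or.inr h2),
          indicator_of_mem (show z ∈ {z | R < N z} from h2)]
        linarith
      · rw [indicator_of_notMem (show z ∉ {z | 2 * M < |φ z| ∨ R < N z} from
          fun h => h.elim h1 h2)]
        linarith
  have hη12 : η1 ≤ η / 2 := hη1δ.trans (min_le_left _ _)
  linarith

end Pool.Agent.H35.HBE
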