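import Pool.Agent.H35.HBE.LOW

/-!
# HB board, module LOW: the theorem for the target with parentheses
-/

set_option autoImplicit false

namespace Pool.Agent.H35.HBE
open Pool.Agent.H27.HB

/-- LOW. -/
theorem pf_LOW (hUCL : T_UCL) (hUTL : T_UTL) (hLNA : T_LNA) (hLNB : T_LNB) (hWKP : T_WKP)
    (hCVS : T_CVS) (hBBE : T_BBE) (hCLA : T_CLA) (hSOB : T_SOB) (hOPT : T_OPT) : T_LOW :=
  pf_LOWf hUCL hUTL hLNA hLNB hWKP hCVS hBBE hCLA hSOB hOPT

end Pool.Agent.H35.HBE
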