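import Pool.Agent.H27.HB.TX

/-!
# HB board, module UTL: uniformity in the exponent for the Jerison-Lee function
-/

set_option autoImplicit false

namespace Pool.Agent.H35.HBE
open MeasureTheory Set Filter Topology Pool.Agent.H80.HS Pool.Agent.H93.HQ Pool.Agent.H27.HB
open scoped ContDiff ENNReal

namespace UTL

variable {n : ℕ}

theorem ww_ge (z : H n) : 1 ≤ ww z := by
  have := sq_nonneg' z
  unfold ww
  nlinarith [sq_nonneg z.2.2]

theorem ww_pos (z : H n) : 0 < ww z := lt_of_lt_of_le one_pos (ww_ge z)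

theorem u0_pos (z : H n) : 0 < u0 n z := Real.rpow_pos_of_pos (ww_pos z) _

theorem u0_le_one (z : H n) : u0 n z ≤ 1 :=
  Real.rpow_le_one_of_one_le_of_nonpos (ww_ge z)
    (by have : (0 : ℝ) ≤ n := Nat.cast_nonneg n
        linarith)

theorem u0_rpow (z : H n) (q : ℝ) : u0 n z ^ q = ww z ^ (-((n : ℝ) * q / 2)) := by
  unfold u0
  rw [← Real.rpow_mul (ww_pos z).le]
  congr 1
  ring

theorem u0_abs_rpow (z : H n) (q : ℝ) : |u0 n z| ^ q = u0 n z ^ q := by
  rw [abs_of_pos (u0_pos z)]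

/-- Integrability of the powers of `w`. -/
theorem int_ww (hJJI : T_JJI) (hn : 1 ≤ n) {s : ℝ} (hs : (n : ℝ) + 1 < 2 * s) :
    Integrable (fun z : H n => ww z ^ (-s)) := by
  have h := (hJJI n 0 s hn le_rfl (by linarith)).1
  refine h.congr (Eventually.of_forall fun z => ?_)
  show mz z ^ (0 : ℝ) * ww z ^ (-s) = ww z ^ (-s)
  rw [Real.rpow_zero, one_mul]

theorem int_u0 (hJJI : T_JJI) (hn : 1 ≤ n) {q : ℝ} (hq : (n : ℝ) + 1 < n * q) :
    Integrable (fun z : H n => u0 n z ^ q) := by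
  have h := int_ww hJJI hn (s := (n : ℝ) * q / 2) (by linarith)
  refine h.congr (Eventually.of_forall fun z => ?_)
  exact (u0_rpow z q).symm

theorem u0_rpow_anti (z : H n) {a b : ℝ} (hab : a ≤ b) : u0 n z ^ b ≤ u0 n z ^ a :=
  Real.rpow_le_rpow_of_exponent_ge (u0_pos z) (u0_le_one z) hab

/-- `n ps n 2 = 2 n + 2`. -/
theorem n_ps2 (hn : 1 ≤ n) : (n : ℝ) * ps n 2 = 2 * n + 2 := by
  have hn1 : (1 : ℝ) ≤ n := by exact_mod_cast hn
  have h5 : (2 * (n : ℝ) + 2 - 2) = 2 * n := by ring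
  have h4 : (2 * (n : ℝ)) ≠ 0 := by linarith
  unfold ps
  rw [h5, mul_div_assoc', div_eq_iff h4]
  ring

/-- The difference of the exponents. -/
theorem ps_sub (hn : 1 ≤ n) {p : ℝ} (hp : p ≤ 2) :
    ps n 2 - ps n p = (2 * (n : ℝ) + 2) ^ 2 * (2 - p) / (2 * n * (2 * n + 2 - p)) := by
  have hn1 : (1 : ℝ) ≤ n := by exact_mod_cast hn
  have h2 : (2 * (n : ℝ) + 2 - 2) ≠ 0 := by linarith
  have h3 : (2 * (n : ℝ) + 2 - p) ≠ 0 := by linarith
  have h4 : (n : ℝ) ≠ 0 := by linarith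
  have h5 : (2 * (n : ℝ) + 2 - 2) = 2 * n := by ring
  unfold ps
  rw [h5, div_sub_div _ _ (by positivity) h3, div_eq_div_iff (by positivity) (by positivity)]
  ring

theorem ps_sub_nonneg (hn : 1 ≤ n) {p : ℝ} (hp : p ≤ 2) : 0 ≤ ps n 2 - ps n p := by
  have hn1 : (1 : ℝ) ≤ n := by exact_mod_cast hn
  rw [ps_sub hn hp]
  have : 0 < 2 * (n : ℝ) + 2 - p := by linarith
  have : 0 ≤ 2 - p := by linarith
  positivity

theorem ps_sub_le (hn : 1 ≤ n) {p : ℝ} (hp : p ≤ 2) : ps n 2 - ps n p ≤ 4 * (2 - p) := by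
  have hn1 : (1 : ℝ) ≤ n := by exact_mod_cast hn
  rw [ps_sub hn hp]
  have h1 : 0 < 2 * (n : ℝ) + 2 - p := by linarith
  have h2 : 0 ≤ 2 - p := by linarith
  rw [div_le_iff₀ (by positivity)]
  have h3 : (2 * (n : ℝ) + 2) ^ 2 ≤ 4 * (2 * n * (2 * n + 2 - p)) := by nlinarith
  nlinarith [mul_le_mul_of_nonneg_right h3 h2]

/-- All exponents lie above `ps n 2 - 1`. -/
theorem ps_ge (hn : 1 ≤ n) {p : ℝ} (hp1 : 15 / 8 ≤ p) (hp : p ≤ 2) :
    ps n 2 - 1 ≤ ps n p := by
  have := ps_sub_le hn hp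
  linarith

theorem cont_u0 (hGRU : T_GRU) : Continuous (u0 n : H n → ℝ) :=
  (hGRU n 0).1.continuous

theorem meas_rpow (hGRU : T_GRU) (q : ℝ) :
    AEStronglyMeasurable (fun z : H n => |u0 n z| ^ q) volume :=
  ((cont_u0 hGRU).abs.measurable.pow_const q).aestronglyMeasurable

theorem int_abs (hGRU : T_GRU) (hJJI : T_JJI) (hn : 1 ≤ n) {q : ℝ} (hq : ps n 2 - 1 ≤ q) :
    Integrable (fun z : H n => |u0 n z| ^ q) := by
  have hn1 : (1 : ℝ) ≤ n := by exact_mod_cast hn
  have h1 := n_ps2 hn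
  have h2 : (n : ℝ) + 1 < n * q := by
    have : (n : ℝ) * (ps n 2 - 1) ≤ n * q := mul_le_mul_of_nonneg_left hq (by linarith)
    nlinarith
  refine (int_u0 hJJI hn h2).congr (Eventually.of_forall fun z => ?_)
  exact (u0_abs_rpow z q).symm

/-- The size of the gradient. -/
theorem grad_le (hGRU : T_GRU) (hn : 1 ≤ n) {p : ℝ} (hp1 : 15 / 8 ≤ p) (hp2 : p ≤ 2)
    (z : H n) : ‖hg (u0 n) z‖ ^ p ≤ (2 * n) ^ 2 * ww z ^ (-(15 * (2 * (n : ℝ) + 1) / 32)) := by
  have hn1 : (1 : ℝ) ≤ n := by exact_mod_cast hn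
  have hw := ww_pos z
  have hw1 := ww_ge z
  have h1 : mz z ≤ ww z ^ (1 / 4 : ℝ) := by
    have h2 : mz z ^ 4 ≤ ww z := by
      have : mz z ^ 4 = (mz z ^ 2) ^ 2 := by ring
      rw [this, mz_sq]
      have := sq_nonneg' z
      unfold ww
      nlinarith [sq_nonneg z.2.2]
    have h3 : mz z = (mz z ^ 4) ^ (1 / 4 : ℝ) := by
      rw [← Real.rpow_natCast, ← Real.rpow_mul (mz_nonneg z)]
      norm_num
    rw [h3]
    exact Real.rpow_le_rpow (pow_nonneg (mz_nonneg z) 4) h2 (by norm_num)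
  have h4 : ‖hg (u0 n) z‖ ≤ 2 * n * ww z ^ (-((2 * (n : ℝ) + 1) / 4)) := by
    rw [(hGRU n z).2]
    calc 2 * (n : ℝ) * mz z * ww z ^ (-((n : ℝ) + 1) / 2)
        ≤ 2 * (n : ℝ) * ww z ^ (1 / 4 : ℝ) * ww z ^ (-((n : ℝ) + 1) / 2) := by
          gcongr
      _ = 2 * n * ww z ^ (-((2 * (n : ℝ) + 1) / 4)) := by
          rw [mul_assoc, ← Real.rpow_add hw]
          congr 2
          ring
  have hp0 : 0 < p := by linarith
  calc ‖hg (u0 n) z‖ ^ p ≤ (2 * n * ww z ^ (-((2 * (n : ℝ) + 1) / 4))) ^ p :=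
        Real.rpow_le_rpow (norm_nonneg _) h4 hp0.le
    _ = (2 * n) ^ p * ww z ^ (-((2 * (n : ℝ) + 1) / 4) * p) := by
        rw [Real.mul_rpow (by positivity) (by positivity), ← Real.rpow_mul hw.le]
    _ ≤ (2 * n) ^ 2 * ww z ^ (-(15 * (2 * (n : ℝ) + 1) / 32)) := by
        refine mul_le_mul ?_ ?_ (by positivity) (by positivity)
        · rw [← Real.rpow_two]
          exact Real.rpow_le_rpow_of_exponent_le (by linarith) hp2
        · refine Real.rpow_le_rpow_of_exponent_le hw1 ?_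
          nlinarith

/-- Uniform smallness of the tail. -/
theorem tail_small (hGRU : T_GRU) (hJJI : T_JJI) (hn : 1 ≤ n) {η : ℝ} (hη : 0 < η) :
    ∃ R : ℝ, ∫ z in {z : H n | R < N z}, |u0 n z| ^ (ps n 2 - 1) ≤ η := by
  have hi := int_abs hGRU hJJI hn (le_refl (ps n 2 - 1))
  have hm : ∀ k : ℕ, MeasurableSet {z : H n | (k : ℝ) < N z} := fun k =>
    (isOpen_lt continuous_const continuous_N).measurableSet
  have hanti : Antitone (fun k : ℕ => {z : H n | (k : ℝ) < N z}) := by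
    intro k l hkl z hz
    have : (k : ℝ) ≤ l := by exact_mod_cast hkl
    exact lt_of_le_of_lt this hz
  have h1 := tendsto_setIntegral_of_antitone hm hanti ⟨0, hi.integrableOn⟩
  have h2 : (⋂ k : ℕ, {z : H n | (k : ℝ) < N z}) = ∅ := by
    rw [eq_empty_iff_forall_notMem]
    intro z hz
    obtain ⟨k, hk⟩ := exists_nat_ge (N z)
    have := mem_iInter.1 hz k
    exact absurd this (not_lt.2 hk)
  rw [h2, setIntegral_empty] at h1
  obtain ⟨k, hk⟩ := (h1.eventually (ge_mem_nhds hη)).exists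
  exact ⟨k, hk⟩

/-- The elementary inequality for the difference of two powers. -/
theorem diff_le {u a q Q : ℝ} (hu0 : 0 < u) (hu1 : u ≤ 1) (ha : 0 < a) (hqQ : q ≤ Q) :
    |u ^ q - u ^ Q| ≤ (Q - q) * (1 / a) * u ^ (q - a) := by
  have h1 : u ^ Q ≤ u ^ q := Real.rpow_le_rpow_of_exponent_ge hu0 hu1 hqQ
  rw [abs_of_nonneg (by linarith)]
  have h2 : u ^ Q = u ^ q * u ^ (Q - q) := by
    rw [← Real.rpow_add hu0]
    congr 1
    ring
  have h3 : 1 - (Q - q) * (-Real.log u) ≤ u ^ (Q - q) := by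
    rw [Real.rpow_def_of_pos hu0]
    have := Real.add_one_le_exp (Real.log u * (Q - q))
    linarith
  have h4 : |Real.log u * u ^ a| < 1 / a := Real.abs_log_mul_self_rpow_lt u a hu0 hu1 ha
  have hlog : Real.log u ≤ 0 := Real.log_nonpos hu0.le hu1
  have h5 : -Real.log u * u ^ a ≤ 1 / a := by
    have := neg_abs_le (Real.log u * u ^ a)
    linarith
  have h6 : u ^ q = u ^ (q - a) * u ^ a := by
    rw [← Real.rpow_add hu0]
    congr 1
    ring
  have h7 : 0 < u ^ (q - a) := Real.rpow_pos_of_pos hu0 _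
  have h8 : 0 < u ^ q := Real.rpow_pos_of_pos hu0 _
  calc u ^ q - u ^ Q = u ^ q * (1 - u ^ (Q - q)) := by rw [h2]; ring
    _ ≤ u ^ q * ((Q - q) * (-Real.log u)) :=
        mul_le_mul_of_nonneg_left (by linarith) h8.le
    _ = (Q - q) * u ^ (q - a) * (-Real.log u * u ^ a) := by rw [h6]; ring
    _ ≤ (Q - q) * u ^ (q - a) * (1 / a) :=
        mul_le_mul_of_nonneg_left h5 (mul_nonneg (by linarith) h7.le)
    _ = (Q - q) * (1 / a) * u ^ (q - a) := by ring

end UTL

open UTL in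
/-- UTL. -/
theorem pf_UTL (hGRU : T_GRU) (hJJI : T_JJI) : T_UTL := by
  intro n hn
  have hn1 : (1 : ℝ) ≤ n := by exact_mod_cast hn
  have hn0 : (0 : ℝ) < n := by linarith
  have hQ := n_ps2 hn
  have hi1 := int_abs hGRU hJJI hn (le_refl (ps n 2 - 1))
  constructor
  · intro q hq
    have hev : ∀ᶠ k in atTop, ps n 2 - 1 ≤ q k :=
      hq.eventually (eventually_ge_nhds (by linarith))
    constructor
    · refine tendsto_integral_filter_of_dominated_convergence
        (fun z => |u0 n z| ^ (ps n 2 - 1)) (Eventually.of_forall fun k => meas_rpow hGRU _)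
        ?_ hi1 (Eventually.of_forall fun z => ?_)
      · filter_upwards [hev] with k hk
        refine Eventually.of_forall fun z => ?_
        rw [Real.norm_of_nonneg (by positivity), u0_abs_rpow, u0_abs_rpow]
        exact u0_rpow_anti z hk
      · exact tendsto_const_nhds.rpow hq (Or.inl (abs_pos.2 (u0_pos z).ne').ne')
    · intro η hη
      obtain ⟨R, hR⟩ := tail_small hGRU hJJI hn hη
      refine ⟨1, R, ?_⟩
      filter_upwards [hev] with k hk
      have hik := int_abs hGRU hJJI hn hk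
      refine ⟨hik, ?_⟩
      have hset : {z : H n | 1 < |u0 n z| ∨ R < N z} = {z : H n | R < N z} := by
        ext z
        constructor
        · rintro (h | h)
          · rw [abs_of_pos (u0_pos z)] at h
            exact absurd h (not_lt.2 (u0_le_one z))
          · exact h
        · exact Or.inr
      rw [hset]
      refine le_trans ?_ hR
      refine setIntegral_mono hik.integrableOn hi1.integrableOn (fun z => ?_)
      show |u0 n z| ^ q k ≤ |u0 n z| ^ (ps n 2 - 1)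
      rw [u0_abs_rpow, u0_abs_rpow]
      exact u0_rpow_anti z hk
  · -- the constants
    have hiQ := int_abs hGRU hJJI hn (q := ps n 2) (by linarith)
    have hm0 : 0 < ms (ps n 2) (u0 n) := by
      unfold ms
      rw [integral_pos_iff_support_of_nonneg (fun z => by positivity) hiQ]
      have hsupp : Function.support (fun z : H n => |u0 n z| ^ ps n 2) = univ := by
        ext z
        simp only [Function.mem_support, mem_univ, iff_true]
        exact (Real.rpow_pos_of_pos (abs_pos.2 (u0_pos z).ne') _).ne'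
      rw [hsupp]
      exact Measure.measure_univ_pos.2 (NeZero.ne _)
    have hir : Integrable (fun z : H n => u0 n z ^ (ps n 2 - 1 - 1 / (2 * n))) := by
      refine int_u0 hJJI hn ?_
      have : (n : ℝ) * (1 / (2 * n)) = 1 / 2 := by field_simp
      nlinarith
    have hig : Integrable (fun z : H n =>
        (2 * (n : ℝ)) ^ 2 * ww z ^ (-(15 * (2 * (n : ℝ) + 1) / 32))) :=
      (int_ww hJJI hn (by linarith)).const_mul _
    have hms1 : 0 ≤ ms (ps n 2 - 1) (u0 n) := integral_nonneg fun z => by positivity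
    have hI1 : 0 ≤ ∫ z : H n, u0 n z ^ (ps n 2 - 1 - 1 / (2 * n)) :=
      integral_nonneg fun z => Real.rpow_nonneg (u0_pos z).le _
    have hI2 : 0 ≤ ∫ z : H n, (2 * (n : ℝ)) ^ 2 * ww z ^ (-(15 * (2 * (n : ℝ) + 1) / 32)) :=
      integral_nonneg fun z => by
        have := ww_pos z
        positivity
    obtain ⟨A, hA⟩ : ∃ A : ℝ, A = (ms (ps n 2) (u0 n))⁻¹ + ms (ps n 2 - 1) (u0 n) +
      (∫ z : H n, (2 * (n : ℝ)) ^ 2 * ww z ^ (-(15 * (2 * (n : ℝ) + 1) / 32))) +
      8 * n * ∫ z : H n, u0 n z ^ (ps n 2 - 1 - 1 / (2 * n)) := ⟨_, rfl⟩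
    have hinv : 0 < (ms (ps n 2) (u0 n))⁻¹ := inv_pos.2 hm0
    have hI3 : 0 ≤ 8 * (n : ℝ) * ∫ z : H n, u0 n z ^ (ps n 2 - 1 - 1 / (2 * n)) :=
      mul_nonneg (by linarith) hI1
    have hA0 : 0 < A := by linarith
    refine ⟨A, hA0, ?_⟩
    intro p hp1 hp2
    have hge := ps_ge hn hp1 hp2
    have hle : ps n p ≤ ps n 2 := by linarith [ps_sub_nonneg hn hp2]
    have hip := int_abs hGRU hJJI hn hge
    refine ⟨?_, ?_, ?_, ?_⟩
    · have h1 : ms (ps n 2) (u0 n) ≤ ms (ps n p) (u0 n) := by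
        refine integral_mono hiQ hip (fun z => ?_)
        show |u0 n z| ^ ps n 2 ≤ |u0 n z| ^ ps n p
        rw [u0_abs_rpow, u0_abs_rpow]
        exact u0_rpow_anti z hle
      refine le_trans ?_ h1
      rw [inv_le_comm₀ hA0 hm0]
      linarith
    · have h1 : ms (ps n p) (u0 n) ≤ ms (ps n 2 - 1) (u0 n) := by
        refine integral_mono hip hi1 (fun z => ?_)
        show |u0 n z| ^ ps n p ≤ |u0 n z| ^ (ps n 2 - 1)
        rw [u0_abs_rpow, u0_abs_rpow]
        exact u0_rpow_anti z hge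
      linarith
    · have h1 : en p (hg (u0 n)) ≤
          ∫ z : H n, (2 * (n : ℝ)) ^ 2 * ww z ^ (-(15 * (2 * (n : ℝ) + 1) / 32)) := by
        refine integral_mono_of_nonneg (Eventually.of_forall fun z => ?_) hig
          (Eventually.of_forall fun z => grad_le hGRU hn hp1 hp2 z)
        exact Real.rpow_nonneg (norm_nonneg _) _
      linarith
    · have ha : (0 : ℝ) < 1 / (2 * n) := by positivity
      have h1 : ∫ z : H n, |u0 n z ^ ps n p - u0 n z ^ ps n 2| ≤
          ∫ z : H n, 4 * (2 - p) * (2 * n) * u0 n z ^ (ps n 2 - 1 - 1 / (2 * n)) := by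
        refine integral_mono_of_nonneg (Eventually.of_forall fun z => abs_nonneg _)
          (hir.const_mul _) (Eventually.of_forall fun z => ?_)
        show |u0 n z ^ ps n p - u0 n z ^ ps n 2| ≤
          4 * (2 - p) * (2 * n) * u0 n z ^ (ps n 2 - 1 - 1 / (2 * n))
        refine (diff_le (u0_pos z) (u0_le_one z) ha hle).trans ?_
        have h2 : (1 : ℝ) / (1 / (2 * n)) = 2 * n := by field_simp
        rw [h2]
        have h3 := ps_sub_le hn hp2
        have h4 : u0 n z ^ (ps n p - 1 / (2 * n)) ≤ u0 n z ^ (ps n 2 - 1 - 1 / (2 * n)) :=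
          u0_rpow_anti z (by linarith)
        have h5 : 0 ≤ u0 n z ^ (ps n p - 1 / (2 * n)) := Real.rpow_nonneg (u0_pos z).le _
        refine mul_le_mul ?_ h4 h5 ?_
        · exact mul_le_mul_of_nonneg_right h3 (by linarith)
        · have : 0 ≤ 2 - p := by linarith
          positivity
      rw [integral_const_mul] at h1
      refine h1.trans ?_
      have h6 : 0 ≤ 2 - p := by linarith
      have h7 : 8 * (n : ℝ) * (∫ z : H n, u0 n z ^ (ps n 2 - 1 - 1 / (2 * n))) ≤ A := by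
        linarith
      have h8 := mul_le_mul_of_nonneg_right h7 h6
      linarith

end Pool.Agent.H35.HBE
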