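import Pool.Agent.H27.HB.TA
import Pool.Agent.H27.HB.TX
import Pool.Agent.H54.HB.Tools

/-!
# HB board, module LOW: the lower bound for the energy near the Jerison-Lee function
-/

set_option autoImplicit false

namespace Pool.Agent.H35.HBE
open MeasureTheory Set Filter Topology Pool.Agent.H80.HS Pool.Agent.H93.HQ Pool.Agent.H27.HB
open scoped ContDiff ENNReal

namespace LOW

open Pool.Agent.H54.HB.Tools

variable {n : ℕ}

theorem u0_nonneg (z : H n) : 0 ≤ u0 n z := by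
  unfold u0 ww
  positivity

/-- The integrability of the weighted square. -/
theorem int_w {p : ℝ} (hp1 : 1 < p) {g h : H n → G n}
    (hg : MemLp g (ENNReal.ofReal p)) (hh : MemLp h (ENNReal.ofReal p)) :
    Integrable (fun z => (‖g z‖ + ‖h z‖) ^ (p - 2) * ‖g z - h z‖ ^ 2) := by
  have hp0 : 0 < p := by linarith
  have h1 := int_rpow hp0 hg
  have h2 := int_rpow hp0 hh
  have hm : AEStronglyMeasurable
      (fun z => (‖g z‖ + ‖h z‖) ^ (p - 2) * ‖g z - h z‖ ^ 2) volume := by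
    refine AEStronglyMeasurable.mul ?_ ?_
    · exact ((hg.1.norm.aemeasurable.add hh.1.norm.aemeasurable).pow_const
        (p - 2)).aestronglyMeasurable
    · exact (hg.1.sub hh.1).norm.pow 2
  refine ((h1.add h2).const_mul (2 ^ (p - 1))).mono' hm (Eventually.of_forall fun z => ?_)
  rw [Real.norm_of_nonneg (by positivity)]
  refine le_trans ?_ (add_rpow_le hp1.le (norm_nonneg (g z)) (norm_nonneg (h z)))
  rcases eq_or_lt_of_le (by positivity : 0 ≤ ‖g z‖ + ‖h z‖) with h0 | h0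
  · have hg0 : ‖g z‖ = 0 := by linarith [norm_nonneg (g z), norm_nonneg (h z)]
    have hh0 : ‖h z‖ = 0 := by linarith [norm_nonneg (g z), norm_nonneg (h z)]
    rw [norm_eq_zero] at hg0 hh0
    rw [hg0, hh0]
    simp [Real.zero_rpow hp0.ne']
  · have h3 : ‖g z - h z‖ ≤ ‖g z‖ + ‖h z‖ := norm_sub_le _ _
    calc (‖g z‖ + ‖h z‖) ^ (p - 2) * ‖g z - h z‖ ^ 2
        ≤ (‖g z‖ + ‖h z‖) ^ (p - 2) * (‖g z‖ + ‖h z‖) ^ 2 := by gcongr
      _ = (‖g z‖ + ‖h z‖) ^ p := by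
          rw [← Real.rpow_natCast, ← Real.rpow_add h0]
          congr 1
          push_cast
          ring

/-- Hoelder's inequality for the difference of the gradients (as in row NQ). -/
theorem hoe {p : ℝ} (hp1 : 1 < p) (hp2 : p < 2) {g h : H n → G n}
    (hg : MemLp g (ENNReal.ofReal p)) (hh : MemLp h (ENNReal.ofReal p))
    (hi : Integrable (fun z => (‖g z‖ + ‖h z‖) ^ (p - 2) * ‖g z - h z‖ ^ 2)) :
    ∫ z, ‖g z - h z‖ ^ p ≤ (∫ z, (‖g z‖ + ‖h z‖) ^ (p - 2) * ‖g z - h z‖ ^ 2) ^ (p / 2) *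
      (2 ^ (p - 1) * (en p g + en p h)) ^ ((2 - p) / 2) := by
  have hp0 : 0 < p := by linarith
  have h1 := int_rpow hp0 hg
  have h2 := int_rpow hp0 hh
  have hM : AEStronglyMeasurable (fun z => (‖g z‖ + ‖h z‖) ^ p) volume :=
    ((hg.1.norm.aemeasurable.add hh.1.norm.aemeasurable).pow_const p).aestronglyMeasurable
  have hle : ∀ z, (‖g z‖ + ‖h z‖) ^ p ≤ 2 ^ (p - 1) * (‖g z‖ ^ p + ‖h z‖ ^ p) := fun z =>
    add_rpow_le hp1.le (norm_nonneg _) (norm_nonneg _)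
  have hMi : Integrable (fun z => (‖g z‖ + ‖h z‖) ^ p) := by
    refine ((h1.add h2).const_mul (2 ^ (p - 1))).mono' hM (Eventually.of_forall fun z => ?_)
    rw [Real.norm_of_nonneg (by positivity)]
    exact hle z
  have h3 := holder (a := p / 2) (b := (2 - p) / 2) (by linarith) (by linarith) (by ring)
    hi hMi (fun z => by positivity) (fun z => by positivity)
  have h4 : ∀ z, ((‖g z‖ + ‖h z‖) ^ (p - 2) * ‖g z - h z‖ ^ 2) ^ (p / 2) *
      ((‖g z‖ + ‖h z‖) ^ p) ^ ((2 - p) / 2) = ‖g z - h z‖ ^ p := by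
    intro z
    rcases eq_or_lt_of_le (by positivity : 0 ≤ ‖g z‖ + ‖h z‖) with h0 | h0
    · have hg0 : ‖g z‖ = 0 := by linarith [norm_nonneg (g z), norm_nonneg (h z)]
      have hh0 : ‖h z‖ = 0 := by linarith [norm_nonneg (g z), norm_nonneg (h z)]
      rw [norm_eq_zero] at hg0 hh0
      rw [hg0, hh0]
      simp only [sub_zero, norm_zero, add_zero]
      rw [Real.zero_rpow hp0.ne', Real.zero_rpow (by linarith : (2 - p) / 2 ≠ 0), mul_zero]
    · rw [Real.mul_rpow (by positivity) (by positivity), ← Real.rpow_natCast,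
        ← Real.rpow_mul (norm_nonneg (g z - h z)), ← Real.rpow_mul h0.le,
        ← Real.rpow_mul h0.le]
      have e1 : (((2 : ℕ) : ℝ) * (p / 2)) = p := by push_cast; ring
      have e2 : p * ((2 - p) / 2) = -((p - 2) * (p / 2)) := by ring
      rw [e1, e2, Real.rpow_neg h0.le]
      have e3 : (‖g z‖ + ‖h z‖) ^ ((p - 2) * (p / 2)) ≠ 0 := (Real.rpow_pos_of_pos h0 _).ne'
      field_simp
  simp only [h4] at h3
  refine h3.trans ?_
  have h5 : 0 ≤ ∫ z, (‖g z‖ + ‖h z‖) ^ (p - 2) * ‖g z - h z‖ ^ 2 :=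
    integral_nonneg fun z => by positivity
  refine mul_le_mul_of_nonneg_left ?_ (Real.rpow_nonneg h5 _)
  refine Real.rpow_le_rpow (integral_nonneg fun z => by positivity) ?_ (by linarith)
  unfold en
  rw [← integral_add h1 h2, ← integral_const_mul]
  exact integral_mono hMi ((h1.add h2).const_mul _) hle

/-- `x ^ a * y ^ b ≤ x + y` for `a + b = 1`. -/
theorem mul_rpow_le_add {x y a b : ℝ} (hx : 0 ≤ x) (hy : 0 ≤ y) (ha : 0 < a) (hb : 0 < b)
    (hab : a + b = 1) : x ^ a * y ^ b ≤ x + y := by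
  have h1 : x ^ a ≤ (x + y) ^ a := Real.rpow_le_rpow hx (by linarith) ha.le
  have h2 : y ^ b ≤ (x + y) ^ b := Real.rpow_le_rpow hy (by linarith) hb.le
  calc x ^ a * y ^ b ≤ (x + y) ^ a * (x + y) ^ b :=
        mul_le_mul h1 h2 (Real.rpow_nonneg hy _) (Real.rpow_nonneg (by linarith) _)
    _ = x + y := by
        rw [← Real.rpow_add_of_nonneg (by linarith) ha.le hb.le, hab, Real.rpow_one]

/-- The integral with the divided difference. -/
theorem int_bb (hBBE : T_BBE) {q : ℝ} (hq : 2 < q) {u v : H n → ℝ}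
    (hu : MemLp u (ENNReal.ofReal q)) (hv : MemLp v (ENNReal.ofReal q))
    (hu0 : ∀ᵐ z, 0 ≤ u z) (hv0 : ∀ᵐ z, 0 ≤ v z) :
    ∫ z, bb q (u z) (v z) * (v z - u z) ^ 2 ≤
      (ms q u + ms q v) ^ ((q - 2) / q) * ms q (fun z => v z - u z) ^ (2 / q) := by
  have hq0 : 0 < q := by linarith
  have hiu : Integrable (fun z => |u z| ^ q) := int_rpow hq0 hu
  have hiv : Integrable (fun z => |v z| ^ q) := int_rpow hq0 hv
  have hiw : Integrable (fun z => |v z - u z| ^ q) := int_rpow hq0 (hv.sub hu)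
  have hsum : Integrable (fun z => |u z| ^ q + |v z| ^ q) := hiu.add hiv
  have h3 := holder (a := (q - 2) / q) (b := 2 / q) (div_pos (by linarith) hq0)
    (div_pos (by norm_num) hq0) (by field_simp; ring) hsum hiw (fun z => by positivity)
    (fun z => by positivity)
  have h4 : ∫ z, (|u z| ^ q + |v z| ^ q) = ms q u + ms q v := integral_add hiu hiv
  rw [h4] at h3
  refine le_trans ?_ h3
  refine integral_mono_of_nonneg ?_ ?_ ?_
  · filter_upwards [hu0, hv0] with z h1 h2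
    have := (hBBE.1 q (u z) (v z) hq h1 h2).2.1
    show 0 ≤ bb q (u z) (v z) * (v z - u z) ^ 2
    positivity
  · refine (hsum.add hiw).mono' ?_ (Eventually.of_forall fun z => ?_)
    · refine AEStronglyMeasurable.mul ?_ ?_
      · exact (hsum.1.aemeasurable.pow_const _).aestronglyMeasurable
      · exact (hiw.1.aemeasurable.pow_const _).aestronglyMeasurable
    · rw [Real.norm_of_nonneg (by positivity)]
      exact mul_rpow_le_add (by positivity) (by positivity) (div_pos (by linarith) hq0)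
        (div_pos (by norm_num) hq0) (by field_simp; ring)
  · filter_upwards [hu0, hv0] with z h1 h2
    obtain ⟨_, h5, h6⟩ := hBBE.1 q (u z) (v z) hq h1 h2
    show bb q (u z) (v z) * (v z - u z) ^ 2 ≤
      (|u z| ^ q + |v z| ^ q) ^ ((q - 2) / q) * (|v z - u z| ^ q) ^ (2 / q)
    have e1 : (|v z - u z| ^ q) ^ (2 / q) = (v z - u z) ^ 2 := by
      rw [← Real.rpow_mul (abs_nonneg _), mul_div_cancel₀ _ hq0.ne']
      rw [Real.rpow_two, sq_abs]
    rw [e1]
    refine mul_le_mul_of_nonneg_right (h6.trans ?_) (sq_nonneg _)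
    have h7 : 0 ≤ max (u z) (v z) := le_max_of_le_left h1
    have e2 : max (u z) (v z) ^ (q - 2) = (max (u z) (v z) ^ q) ^ ((q - 2) / q) := by
      rw [← Real.rpow_mul h7, mul_div_cancel₀ _ hq0.ne']
    rw [e2]
    refine Real.rpow_le_rpow (by positivity) ?_ (div_nonneg (by linarith) hq0.le)
    rcases max_cases (u z) (v z) with h8 | h8
    · rw [h8.1, abs_of_nonneg h1]
      have : 0 ≤ |v z| ^ q := by positivity
      linarith
    · rw [h8.1, abs_of_nonneg h2]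
      have : 0 ≤ |u z| ^ q := by positivity
      linarith

/-- The zeroth order identity. -/
theorem bb_id (hBBE : T_BBE) {q : ℝ} (hq : 2 < q) {u v : H n → ℝ}
    (hu : MemLp u (ENNReal.ofReal q)) (hv : MemLp v (ENNReal.ofReal q))
    (hu0 : ∀ᵐ z, 0 ≤ u z) (hv0 : ∀ᵐ z, 0 ≤ v z) (hms : ms q v = ms q u)
    (hi : Integrable (fun z => u z ^ (q - 1) * (v z - u z))) :
    ∫ z, u z ^ (q - 1) * (v z - u z) =
      - ((q - 1) / 2 * ∫ z, bb q (u z) (v z) * (v z - u z) ^ 2) := by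
  have hq0 : 0 < q := by linarith
  have hiu : Integrable (fun z => |u z| ^ q) := int_rpow hq0 hu
  have hiv : Integrable (fun z => |v z| ^ q) := int_rpow hq0 hv
  have h1 : ∫ z, q * (q - 1) / 2 * (bb q (u z) (v z) * (v z - u z) ^ 2) =
      ∫ z, ((|v z| ^ q - |u z| ^ q) - q * (u z ^ (q - 1) * (v z - u z))) := by
    refine integral_congr_ae ?_
    filter_upwards [hu0, hv0] with z h1 h2
    have h3 := (hBBE.1 q (u z) (v z) hq h1 h2).1
    show q * (q - 1) / 2 * (bb q (u z) (v z) * (v z - u z) ^ 2) =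
      (|v z| ^ q - |u z| ^ q) - q * (u z ^ (q - 1) * (v z - u z))
    rw [abs_of_nonneg h1, abs_of_nonneg h2]
    linarith
  have hsub : Integrable (fun z => |v z| ^ q - |u z| ^ q) := hiv.sub hiu
  have hiq : Integrable (fun z => q * (u z ^ (q - 1) * (v z - u z))) := hi.const_mul q
  rw [integral_const_mul, integral_sub hsub hiq, integral_sub hiv hiu,
    integral_const_mul] at h1
  have h2 : ∫ z, |v z| ^ q = ∫ z, |u z| ^ q := hms
  rw [h2, sub_self, zero_sub] at h1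
  have h3 : q * (∫ z, u z ^ (q - 1) * (v z - u z)) =
      q * (- ((q - 1) / 2 * ∫ z, bb q (u z) (v z) * (v z - u z) ^ 2)) := by
    linarith
  exact mul_left_cancel₀ hq0.ne' h3

/-- A power with exponent in `[0, 1]` of a number `≤ D`, `1 ≤ D`. -/
theorem rpow_le_of {x D t : ℝ} (hx : 0 ≤ x) (hD : 1 ≤ D) (hxD : x ≤ D) (ht0 : 0 ≤ t)
    (ht1 : t ≤ 1) : x ^ t ≤ D := by
  calc x ^ t ≤ D ^ t := Real.rpow_le_rpow hx hxD ht0
    _ ≤ D ^ (1 : ℝ) := Real.rpow_le_rpow_of_exponent_le hD ht1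
    _ = D := Real.rpow_one D

end LOW

/-- LOW, with parentheses around the integral: the lower bound for the energy. -/
def T_LOWf : Prop := ∀ n : ℕ, 1 ≤ n → ∀ B : ℝ, ∃ A : ℝ, 0 < A ∧ ∀ p S : ℝ, 15 / 8 ≤ p →
  p < 2 → 2 < ps n p → Opt n p S → ∀ (v : H n → ℝ) (g : H n → G n), Cl p v g →
  (∀ᵐ z, 0 ≤ v z) → ms (ps n p) v = ms (ps n p) (u0 n) → en p g ≤ B →
  Integrable (fun z => (‖hg (u0 n) z‖ + ‖g z‖) ^ (p - 2) * ‖hg (u0 n) z - g z‖ ^ 2) ∧
  en p (fun z => g z - hg (u0 n) z) ≤ A ^ (2 - p) * N2 p g ^ (p / 2) ∧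
  ∫ z, bb (ps n p) (u0 n z) (v z) * (v z - u0 n z) ^ 2 ≤ A * N2 p g ∧
  en p (hg (u0 n)) + p * (p - 1) / 2 * 2 ^ (p - 2) * N2 p g
    - p * (4 * (n : ℝ) ^ 2) * ((ps n p - 1) / 2) *
      (∫ z, bb (ps n p) (u0 n z) (v z) * (v z - u0 n z) ^ 2)
    - A * (2 - p) * Real.sqrt (N2 p g) ≤ en p g

open LOW Pool.Agent.H54.HB.Tools in
/-- LOW. -/
theorem pf_LOWf (hUCL : T_UCL) (hUTL : T_UTL) (hLNA : T_LNA) (hLNB : T_LNB) (hWKP : T_WKP)
    (hCVS : T_CVS) (hBBE : T_BBE) (hCLA : T_CLA) (hSOB : T_SOB) (hOPT : T_OPT) :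
    T_LOWf := by
  intro n hn B
  obtain ⟨_, A1, hA1, hU⟩ := hUTL n hn
  obtain ⟨A2, hA2, hLA⟩ := hLNA n hn
  obtain ⟨A3, hA3, hLB⟩ := hLNB n hn
  have hn1 : (1 : ℝ) ≤ n := by exact_mod_cast hn
  obtain ⟨L, _, hL, hO⟩ := hOPT n hn (15 / 8) 2 (by norm_num) (by norm_num) (by linarith)
  obtain ⟨D, hDdef⟩ : ∃ D : ℝ, D = 2 * (A1 + |B|) + 1 := ⟨_, rfl⟩
  have hD1 : 1 ≤ D := by
    have := abs_nonneg B
    rw [hDdef]
    linarith
  obtain ⟨E, hEdef⟩ : ∃ E : ℝ, E = max 1 L⁻¹ := ⟨_, rfl⟩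
  have hE1 : 1 ≤ E := hEdef ▸ le_max_left _ _
  obtain ⟨F, hFdef⟩ : ∃ F : ℝ, F = E * D := ⟨_, rfl⟩
  have hF1 : 0 < F := by rw [hFdef]; positivity
  obtain ⟨K, hKdef⟩ : ∃ K : ℝ, K = max 1 (2 * A1) := ⟨_, rfl⟩
  have hK1 : 1 ≤ K := hKdef ▸ le_max_left _ _
  have hD0 : 0 < D := by linarith
  have hK0 : 0 < K := by linarith
  refine ⟨D + K * F ^ 2 + 8 * (n : ℝ) ^ 2 * A3 * F + 2 * A2 * D, by positivity, ?_⟩
  intro p S hp1 hp2 hq hS v g hv hv0 hms hB
  have hp0 : 0 < p := by linarith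
  have hp11 : 1 < p := by linarith
  have hpQ : p < 2 * n + 2 := by linarith
  obtain ⟨hucl, _, _, _⟩ := hUCL n hn p (by linarith) (by linarith)
  obtain ⟨_, hmsA, henA, _⟩ := hU p hp1 hp2.le
  have hLS : L ≤ S := ((hO p hp1 hp2.le).2 S hS).1
  have hum : MemLp (u0 n) (ENNReal.ofReal (ps n p)) := hucl.1
  have hgum : MemLp (hg (u0 n)) (ENNReal.ofReal p) := hucl.2.1
  have hvm : MemLp v (ENNReal.ofReal (ps n p)) := hv.1
  have hgm : MemLp g (ENNReal.ofReal p) := hv.2.1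
  have hq0 : 0 < ps n p := by linarith
  -- the difference
  have hcl : Cl p (fun z => v z - u0 n z) (fun z => g z - hg (u0 n) z) := by
    have h1 := hCLA n hn p hp11 hpQ v (u0 n) g (hg (u0 n)) 1 (-1) hv hucl
    have e1 : (fun z => (1 : ℝ) * v z + -1 * u0 n z) = fun z => v z - u0 n z := by
      funext z
      ring
    have e2 : (fun z => (1 : ℝ) • g z + (-1 : ℝ) • hg (u0 n) z) =
        fun z => g z - hg (u0 n) z := by
      funext z
      rw [one_smul, neg_smul, one_smul, sub_eq_add_neg]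
    rw [e1, e2] at h1
    exact h1
  have hi1 := int_w hp11 hgum hgm
  have hN0 : 0 ≤ N2 p g := integral_nonneg fun z => by positivity
  have hsq : Real.sqrt (N2 p g) ^ 2 = N2 p g := Real.sq_sqrt hN0
  have hsq0 : 0 ≤ Real.sqrt (N2 p g) := Real.sqrt_nonneg _
  have hen0 : 0 ≤ en p (fun z => g z - hg (u0 n) z) := integral_nonneg fun z => by positivity
  -- the energy of the difference
  have henS : en p (fun z => g z - hg (u0 n) z) ≤ D ^ (2 - p) * N2 p g ^ (p / 2) := by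
    have h1 := hoe hp11 hp2 hgum hgm hi1
    have e1 : en p (fun z => g z - hg (u0 n) z) = ∫ z, ‖hg (u0 n) z - g z‖ ^ p := by
      unfold en
      refine integral_congr_ae (Eventually.of_forall fun z => ?_)
      show ‖g z - hg (u0 n) z‖ ^ p = ‖hg (u0 n) z - g z‖ ^ p
      rw [norm_sub_rev]
    have e2 : (∫ z, (‖hg (u0 n) z‖ + ‖g z‖) ^ (p - 2) * ‖hg (u0 n) z - g z‖ ^ 2) = N2 p g :=
      rfl
    rw [e1]
    rw [e2] at h1
    refine h1.trans ?_
    rw [mul_comm (D ^ (2 - p))]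
    refine mul_le_mul_of_nonneg_left ?_ (Real.rpow_nonneg hN0 _)
    have h2 : 0 ≤ en p (hg (u0 n)) := integral_nonneg fun z => by positivity
    have h3 : 0 ≤ en p g := integral_nonneg fun z => by positivity
    have h4 : (2 : ℝ) ^ (p - 1) ≤ 2 := by
      calc (2 : ℝ) ^ (p - 1) ≤ (2 : ℝ) ^ (1 : ℝ) :=
            Real.rpow_le_rpow_of_exponent_le (by norm_num) (by linarith)
        _ = 2 := Real.rpow_one 2
    have h5 : (2 : ℝ) ^ (p - 1) * (en p (hg (u0 n)) + en p g) ≤ D := by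
      have h6 : en p (hg (u0 n)) + en p g ≤ A1 + |B| := by
        have := le_abs_self B
        linarith
      calc (2 : ℝ) ^ (p - 1) * (en p (hg (u0 n)) + en p g) ≤ 2 * (A1 + |B|) :=
            mul_le_mul h4 h6 (by linarith) (by norm_num)
        _ ≤ D := by rw [hDdef]; linarith
    calc (2 ^ (p - 1) * (en p (hg (u0 n)) + en p g)) ^ ((2 - p) / 2)
        ≤ D ^ ((2 - p) / 2) := Real.rpow_le_rpow (by positivity) h5 (by linarith)
      _ ≤ D ^ (2 - p) := Real.rpow_le_rpow_of_exponent_le hD1 (by linarith)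
  have hen : en p (fun z => g z - hg (u0 n) z) ≤ D * N2 p g ^ (p / 2) :=
    henS.trans (mul_le_mul_of_nonneg_right
      (rpow_le_of hD0.le hD1 le_rfl (by linarith) (by linarith)) (Real.rpow_nonneg hN0 _))
  have hpinv0 : 0 ≤ 1 / p := by positivity
  have hpinv1 : 1 / p ≤ 1 := by
    rw [div_le_one hp0]
    linarith
  have hNp : (N2 p g ^ (p / 2)) ^ (1 / p) = Real.sqrt (N2 p g) := by
    rw [← Real.rpow_mul hN0, Real.sqrt_eq_rpow]
    congr 1
    field_simp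
  have hen' : en p (fun z => g z - hg (u0 n) z) ^ (1 / p) ≤ D * Real.sqrt (N2 p g) := by
    calc en p (fun z => g z - hg (u0 n) z) ^ (1 / p) ≤ (D * N2 p g ^ (p / 2)) ^ (1 / p) :=
          Real.rpow_le_rpow hen0 hen hpinv0
      _ = D ^ (1 / p) * Real.sqrt (N2 p g) := by
          rw [Real.mul_rpow hD0.le (Real.rpow_nonneg hN0 _), hNp]
      _ ≤ D * Real.sqrt (N2 p g) :=
          mul_le_mul_of_nonneg_right (rpow_le_of hD0.le hD1 le_rfl hpinv0 hpinv1) hsq0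
  -- the norm of the difference
  have hms0 : 0 ≤ ms (ps n p) (fun z => v z - u0 n z) := integral_nonneg fun z => by positivity
  have hmsw : ms (ps n p) (fun z => v z - u0 n z) ^ (1 / ps n p) ≤
      F * Real.sqrt (N2 p g) := by
    have h1 := hSOB n hn p S hp11 hpQ hS _ _ hcl
    have h2 : ms (ps n p) (fun z => v z - u0 n z) ^ th n p ≤
        L⁻¹ * en p (fun z => g z - hg (u0 n) z) := by
      rw [inv_mul_eq_div, le_div_iff₀ hL, mul_comm]
      exact (mul_le_mul_of_nonneg_right hLS (Real.rpow_nonneg hms0 _)).trans h1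
    have h3 : th n p * (1 / p) = 1 / ps n p := by
      unfold th ps
      have : (2 * (n : ℝ) + 2 - p) ≠ 0 := by linarith
      field_simp
    have h4 : (ms (ps n p) (fun z => v z - u0 n z) ^ th n p) ^ (1 / p) =
        ms (ps n p) (fun z => v z - u0 n z) ^ (1 / ps n p) := by
      rw [← Real.rpow_mul hms0, h3]
    rw [← h4]
    have hLi : 0 ≤ L⁻¹ := by positivity
    calc (ms (ps n p) (fun z => v z - u0 n z) ^ th n p) ^ (1 / p)
        ≤ (L⁻¹ * en p (fun z => g z - hg (u0 n) z)) ^ (1 / p) :=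
          Real.rpow_le_rpow (Real.rpow_nonneg hms0 _) h2 hpinv0
      _ = L⁻¹ ^ (1 / p) * en p (fun z => g z - hg (u0 n) z) ^ (1 / p) :=
          Real.mul_rpow hLi hen0
      _ ≤ E * (D * Real.sqrt (N2 p g)) := by
          refine mul_le_mul (rpow_le_of hLi hE1 (hEdef ▸ le_max_right _ _) hpinv0 hpinv1) hen'
            (Real.rpow_nonneg hen0 _) (by linarith)
      _ = F * Real.sqrt (N2 p g) := by rw [hFdef]; ring
  have hu0ae : ∀ᵐ z, 0 ≤ u0 n z := Eventually.of_forall u0_nonneg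
  -- the integral with the divided difference
  have hbb : ∫ z, bb (ps n p) (u0 n z) (v z) * (v z - u0 n z) ^ 2 ≤ K * F ^ 2 * N2 p g := by
    refine (int_bb hBBE hq hum hvm hu0ae hv0).trans ?_
    have h1 : (ms (ps n p) (u0 n) + ms (ps n p) v) ^ ((ps n p - 2) / ps n p) ≤ K := by
      have h2 : 0 ≤ ms (ps n p) (u0 n) := integral_nonneg fun z => by positivity
      refine rpow_le_of (by rw [hms]; linarith) hK1 ?_ (div_nonneg (by linarith) hq0.le) ?_
      · rw [hms, hKdef]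
        exact le_trans (by linarith) (le_max_right _ _)
      · rw [div_le_one hq0]
        linarith
    have h3 : ms (ps n p) (fun z => v z - u0 n z) ^ (2 / ps n p) ≤ F ^ 2 * N2 p g := by
      have h4 : ms (ps n p) (fun z => v z - u0 n z) ^ (2 / ps n p) =
          (ms (ps n p) (fun z => v z - u0 n z) ^ (1 / ps n p)) ^ 2 := by
        rw [← Real.rpow_natCast, ← Real.rpow_mul hms0]
        congr 1
        push_cast
        ring
      rw [h4, ← hsq, ← mul_pow]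
      exact pow_le_pow_left₀ (Real.rpow_nonneg hms0 _) hmsw 2
    calc _ ≤ K * (F ^ 2 * N2 p g) := mul_le_mul h1 h3 (Real.rpow_nonneg hms0 _) hK0.le
      _ = _ := by ring
  have hbb0 : 0 ≤ ∫ z, bb (ps n p) (u0 n z) (v z) * (v z - u0 n z) ^ 2 := by
    refine integral_nonneg_of_ae ?_
    filter_upwards [hv0] with z h2
    have := (hBBE.1 (ps n p) (u0 n z) (v z) hq (u0_nonneg z) h2).2.1
    show 0 ≤ bb (ps n p) (u0 n z) (v z) * (v z - u0 n z) ^ 2
    positivity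
  have hAA : 0 ≤ 8 * (n : ℝ) ^ 2 * A3 * F := by positivity
  have hAB : 0 ≤ 2 * A2 * D := by positivity
  have hAC : 0 ≤ K * F ^ 2 := by positivity
  refine ⟨hi1, ?_, ?_, ?_⟩
  · refine henS.trans (mul_le_mul_of_nonneg_right ?_ (Real.rpow_nonneg hN0 _))
    exact Real.rpow_le_rpow hD0.le (by linarith) (by linarith)
  · refine hbb.trans (mul_le_mul_of_nonneg_right ?_ hN0)
    linarith
  -- the main inequality
  obtain ⟨hj1, hj2, hj3, hj4, hj5⟩ := hWKP n hn p hp1 hp2.le _ _ hcl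
  have hla := hLA p hp1 hp2.le (fun z => g z - hg (u0 n) z) hcl.2.1
  have hlb := hLB p hp1 hp2.le (fun z => v z - u0 n z) hcl.1
  have hid := bb_id hBBE hq hum hvm hu0ae hv0 hms hj4
  have e1 : ∫ z, (‖hg (u0 n) z‖ ^ (p - 2) - 1) * inner ℝ (hg (u0 n) z) (g z - hg (u0 n) z) =
      (∫ z, ‖hg (u0 n) z‖ ^ (p - 2) * inner ℝ (hg (u0 n) z) (g z - hg (u0 n) z)) -
        ∫ z, inner ℝ (hg (u0 n) z) (g z - hg (u0 n) z) := by
    rw [← integral_sub hj2 hj1]
    refine integral_congr_ae (Eventually.of_forall fun z => ?_)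
    show (‖hg (u0 n) z‖ ^ (p - 2) - 1) * inner ℝ (hg (u0 n) z) (g z - hg (u0 n) z) =
      ‖hg (u0 n) z‖ ^ (p - 2) * inner ℝ (hg (u0 n) z) (g z - hg (u0 n) z) -
        inner ℝ (hg (u0 n) z) (g z - hg (u0 n) z)
    ring
  have e2 : ∫ z, (u0 n z ^ (ps n 2 - 1) - u0 n z ^ (ps n p - 1)) * (v z - u0 n z) =
      (∫ z, u0 n z ^ (ps n 2 - 1) * (v z - u0 n z)) -
        ∫ z, u0 n z ^ (ps n p - 1) * (v z - u0 n z) := by
    rw [← integral_sub hj3 hj4]
    refine integral_congr_ae (Eventually.of_forall fun z => ?_)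
    show (u0 n z ^ (ps n 2 - 1) - u0 n z ^ (ps n p - 1)) * (v z - u0 n z) =
      u0 n z ^ (ps n 2 - 1) * (v z - u0 n z) - u0 n z ^ (ps n p - 1) * (v z - u0 n z)
    ring
  rw [e1] at hla
  rw [e2] at hlb
  have hla' := (abs_le.1 hla).1
  have hlb' := (abs_le.1 hlb).1
  -- integrate the pointwise inequality
  have h1 : Integrable (fun z => ‖hg (u0 n) z‖ ^ p) := int_rpow hp0 hgum
  have h2 : Integrable (fun z => ‖g z‖ ^ p) := int_rpow hp0 hgm
  have h3 : (∫ z, (‖hg (u0 n) z‖ ^ p +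
      p * (‖hg (u0 n) z‖ ^ (p - 2) * inner ℝ (hg (u0 n) z) (g z - hg (u0 n) z)) +
      p * (p - 1) / 2 * 2 ^ (p - 2) *
        ((‖hg (u0 n) z‖ + ‖g z‖) ^ (p - 2) * ‖hg (u0 n) z - g z‖ ^ 2))) ≤
      ∫ z, ‖g z‖ ^ p := by
    refine integral_mono ((h1.add (hj2.const_mul p)).add (hi1.const_mul _)) h2 (fun z => ?_)
    have h4 := hCVS n p hp11 hp2.le (hg (u0 n) z) (g z)
    have h5 : (2 * (‖hg (u0 n) z‖ + ‖g z‖)) ^ (p - 2) =
        2 ^ (p - 2) * (‖hg (u0 n) z‖ + ‖g z‖) ^ (p - 2) :=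
      Real.mul_rpow (by norm_num) (by positivity)
    rw [h5] at h4
    show ‖hg (u0 n) z‖ ^ p +
      p * (‖hg (u0 n) z‖ ^ (p - 2) * inner ℝ (hg (u0 n) z) (g z - hg (u0 n) z)) +
      p * (p - 1) / 2 * 2 ^ (p - 2) *
        ((‖hg (u0 n) z‖ + ‖g z‖) ^ (p - 2) * ‖hg (u0 n) z - g z‖ ^ 2) ≤ ‖g z‖ ^ p
    refine le_trans (le_of_eq ?_) h4
    ring
  have hk1 : Integrable (fun z =>
      p * (‖hg (u0 n) z‖ ^ (p - 2) * inner ℝ (hg (u0 n) z) (g z - hg (u0 n) z))) :=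
    hj2.const_mul p
  have hk2 : Integrable (fun z => ‖hg (u0 n) z‖ ^ p +
      p * (‖hg (u0 n) z‖ ^ (p - 2) * inner ℝ (hg (u0 n) z) (g z - hg (u0 n) z))) :=
    h1.add hk1
  rw [integral_add hk2 (hi1.const_mul _),
    integral_add h1 hk1, integral_const_mul, integral_const_mul] at h3
  have h6 : en p (hg (u0 n)) = ∫ z, ‖hg (u0 n) z‖ ^ p := rfl
  have h7 : en p g = ∫ z, ‖g z‖ ^ p := rfl
  have h8 : N2 p g = ∫ z, (‖hg (u0 n) z‖ + ‖g z‖) ^ (p - 2) * ‖hg (u0 n) z - g z‖ ^ 2 := rfl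
  rw [← h6, ← h7, ← h8] at h3
  rw [hid] at hlb'
  rw [hj5] at hla'
  -- collect
  obtain ⟨I1, hI1⟩ : ∃ I : ℝ, I = ∫ z, ‖hg (u0 n) z‖ ^ (p - 2) *
    inner ℝ (hg (u0 n) z) (g z - hg (u0 n) z) := ⟨_, rfl⟩
  obtain ⟨I2, hI2⟩ : ∃ I : ℝ, I = ∫ z, u0 n z ^ (ps n 2 - 1) * (v z - u0 n z) := ⟨_, rfl⟩
  obtain ⟨I3, hI3⟩ : ∃ I : ℝ, I = ∫ z, bb (ps n p) (u0 n z) (v z) * (v z - u0 n z) ^ 2 :=
    ⟨_, rfl⟩
  rw [← hI1, ← hI2] at hla'
  rw [← hI2, ← hI3] at hlb'
  rw [← hI1] at h3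
  rw [← hI3]
  obtain ⟨s, hs⟩ : ∃ s : ℝ, s = Real.sqrt (N2 p g) := ⟨_, rfl⟩
  rw [← hs] at hen' hmsw hsq0
  rw [← hs]
  have hδ : 0 ≤ 2 - p := by linarith
  have h9 : I1 ≥ 4 * (n : ℝ) ^ 2 * I2 - A2 * (2 - p) * (D * s) := by
    have : A2 * (2 - p) * en p (fun z => g z - hg (u0 n) z) ^ (1 / p) ≤
        A2 * (2 - p) * (D * s) := mul_le_mul_of_nonneg_left hen' (by positivity)
    linarith
  have h10 : I2 ≥ -((ps n p - 1) / 2 * I3) - A3 * (2 - p) * (F * s) := by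
    have : A3 * (2 - p) * ms (ps n p) (fun z => v z - u0 n z) ^ (1 / ps n p) ≤
        A3 * (2 - p) * (F * s) := mul_le_mul_of_nonneg_left hmsw (by positivity)
    linarith
  have h11 : p * I1 ≥ -(p * (4 * (n : ℝ) ^ 2) * ((ps n p - 1) / 2) * I3) -
      p * ((4 * (n : ℝ) ^ 2 * A3 * F + A2 * D) * (2 - p) * s) := by
    have h12 : 4 * (n : ℝ) ^ 2 * I2 ≥
        4 * (n : ℝ) ^ 2 * (-((ps n p - 1) / 2 * I3) - A3 * (2 - p) * (F * s)) :=
      mul_le_mul_of_nonneg_left h10 (by positivity)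
    have h13 : I1 ≥ 4 * (n : ℝ) ^ 2 * (-((ps n p - 1) / 2 * I3) - A3 * (2 - p) * (F * s)) -
        A2 * (2 - p) * (D * s) := by linarith
    have h14 := mul_le_mul_of_nonneg_left h13 hp0.le
    refine le_trans (le_of_eq ?_) h14
    ring
  have h15 : p * ((4 * (n : ℝ) ^ 2 * A3 * F + A2 * D) * (2 - p) * s) ≤
      (D + K * F ^ 2 + 8 * (n : ℝ) ^ 2 * A3 * F + 2 * A2 * D) * (2 - p) * s := by
    have h16 : p * ((4 * (n : ℝ) ^ 2 * A3 * F + A2 * D) * (2 - p) * s) ≤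
        2 * ((4 * (n : ℝ) ^ 2 * A3 * F + A2 * D) * (2 - p) * s) :=
      mul_le_mul_of_nonneg_right hp2.le (by positivity)
    have h17 : 0 ≤ (D + K * F ^ 2) * (2 - p) * s := by positivity
    linarith
  linarith

end Pool.Agent.H35.HBE
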